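import Pool.Agent.R352.E.Gen

/-!
# Counting algebraic numbers among zeta values and generalized Gompertz numbers
-/

set_option autoImplicit false

open Filter Topology Set MeasureTheory

namespace Pool.Agent.R352.E

lemma encard_le_of_finset {α : Type*} (s : Set α) (n : ℕ) (h : ∀ t : Finset α, (t : Set α) ⊆ s → t.card ≤ n) :
    s.encard ≤ n := by
  by_contra hcon
  push Not at hcon
  have h1 : ((n + 1 : ℕ) : ℕ∞) ≤ s.encard := by
    have := Order.add_one_le_of_lt hcon
    exact_mod_cast this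
  obtain ⟨t, hts, htc⟩ := exists_subset_encard_eq h1
  have hfin : t.Finite := by
    rw [← encard_lt_top_iff, htc]
    exact ENat.natCast_lt_top _
  have h2 := h hfin.toFinset (by simpa using hts)
  have h3 : ((hfin.toFinset.card : ℕ) : ℕ∞) = ((n + 1 : ℕ) : ℕ∞) := by
    rw [← htc, ← encard_coe_eq_coe_finsetCard, hfin.coe_toFinset]
  have h4 : hfin.toFinset.card = n + 1 := by exact_mod_cast h3
  omega

/-- the constants `ζ(3)`, `ζ(3)/π³`, `ζ(5)`, …, `ζ(2c+3)` -/
noncomputable def con3 (c : ℕ) : Fin (c + 2) → ℝ :=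
  Fin.cons (zt 3) (Fin.cons (zt 3 / Real.pi ^ 3) fun i : Fin c => zt (2 * i + 5))

lemma zt3_pos : 0 < zt 3 := by
  have h2 : Summable (fun n : ℕ => 1 / ((n : ℝ) + 1) ^ 3) := by
    have := (summable_nat_add_iff 1).2 (Real.summable_one_div_nat_pow.2 (show 1 < 3 by norm_num))
    refine this.congr fun n => ?_
    push_cast
    rfl
  exact h2.tsum_pos (fun n => by positivity) 0 (by norm_num)

lemma zt_all {T : Set ℝ} (hpi : Real.pi ∈ clF T) (m : ℕ) (h : ∀ i < m, zt (2 * i + 3) ∈ clF T) (k : ℕ) (hk : 2 ≤ k)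
    (hk' : k ≤ 2 * m + 2) : zt k ∈ clF T := by
  rcases Nat.even_or_odd' k with ⟨j, rfl | rfl⟩
  · exact zt_even hpi j (by omega)
  · have : 2 * j + 1 = 2 * (j - 1) + 3 := by omega
    rw [this]
    exact h _ (by omega)

/-- the counting theorem with zeta values -/
theorem count_zeta {c r : ℕ} (y : Fin r → ℝ)
    (S : Finset (Fin (c + 2) ⊕ Fin r ⊕ (Fin (2 * c + 4) × ℚ)))
    (hS : ∀ i ∈ S, gval (2 * c + 4) (con3 c) y i ∈ clF {Real.exp 1})
    (hX : ∀ p : Fin (2 * c + 4) × ℚ, Sum.inr (Sum.inr p) ∈ S → 0 < p.2 ∧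
      Real.eulerMascheroniConstant + Real.log p.2 ∈ clF ({Real.exp 1} ∪ range y)) : S.card ≤ c + 2 + r := by
  refine count_main (con3 c) y ?_ S hS hX
  intro l x hx T hcon he h0 hd
  have hpi : Real.pi ∈ clF T := by
    have h1 : zt 3 ∈ clF T := hcon 0
    have h2 : zt 3 / Real.pi ^ 3 ∈ clF T := hcon 1
    refine of_pow (n := 3) (by norm_num) ?_
    have h3 : Real.pi ^ 3 = zt 3 / (zt 3 / Real.pi ^ 3) := by
      have := zt3_pos.ne'
      have := Real.pi_ne_zero
      field_simp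
    rw [h3]
    exact (clF T).div_mem h1 h2
  refine EE_mem hx he h0 (l + 1) (fun k hk hk' => ?_) (by exact_mod_cast hd)
  refine zt_all hpi (c + 1) (fun i hi => ?_) k hk ?_
  · cases i with
    | zero => exact hcon 0
    | succ i =>
      have := hcon (Fin.succ (Fin.succ ⟨i, by omega⟩))
      simp only [con3, Fin.cons_succ] at this
      have e : 2 * (i + 1) + 3 = 2 * i + 5 := by ring
      rw [e]
      exact this
  · have := l.2
    omega

/-- the counting theorem for levels `≤ J` with constants `π, ζ(3), …` -/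
theorem count_one {r : ℕ} (y : Fin r → ℝ)
    (S : Finset (Fin 0 ⊕ Fin r ⊕ (Fin 1 × ℚ))) (hS : ∀ i ∈ S, gval 1 (Fin.elim0 : Fin 0 → ℝ) y i ∈ clF {Real.exp 1})
    (hX : ∀ p : Fin 1 × ℚ, Sum.inr (Sum.inr p) ∈ S → 0 < p.2 ∧
      Real.eulerMascheroniConstant + Real.log p.2 ∈ clF ({Real.exp 1} ∪ range y)) : S.card ≤ 0 + r := by
  refine count_main _ y ?_ S hS hX
  intro l x hx T _ he h0 hd
  refine EE_mem hx he h0 (l + 1) (fun k hk hk' => ?_) (by exact_mod_cast hd)
  have := l.2
  omega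

/-- algebraic independence for an arbitrary finite set of pairs -/
lemma EE_alg_S (J : ℕ) (S : Set (Fin J × ℚ)) (hpos : ∀ p ∈ S, 0 < p.2) :
    AlgebraicIndependent ℚ (fun o : Option S => o.elim (Real.exp 1) (fun p => EE (p.1.1 + 1) p.1.2)) := by
  have h := EE_alg_Q J (ι := {x : ℚ // 0 < x}) (fun x => (x : ℚ)) Subtype.val_injective (fun x => x.2)
  let f : Option S → Option (Fin J × {x : ℚ // 0 < x}) := Option.map fun p => (p.1.1, ⟨p.1.2, hpos _ p.2⟩)
  have hf : Function.Injective f := by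
    refine Option.map_injective ?_
    intro p p' h
    simp only [Prod.mk.injEq, Subtype.mk.injEq] at h
    exact Subtype.ext (Prod.ext h.1 h.2)
  have h2 := h.comp f hf
  convert h2 using 1
  ext o
  cases o <;> simp [f]

/-- membership, all generators -/
lemma mem_zeta {c : ℕ} {T : Set ℝ} (hcon : ∀ i, con3 c i ∈ clF T) (he : Real.exp 1 ∈ clF T) (l : Fin (2 * c + 4)) (x : ℚ)
    (hx : 0 < x) (h0 : Real.eulerMascheroniConstant + Real.log x ∈ clF T) (hd : dl (l + 1) x ∈ clF T) :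
    EE (l + 1) x ∈ clF T := by
  have hpi : Real.pi ∈ clF T := by
    have h1 : zt 3 ∈ clF T := hcon 0
    have h2 : zt 3 / Real.pi ^ 3 ∈ clF T := hcon 1
    refine of_pow (n := 3) (by norm_num) ?_
    have h3 : Real.pi ^ 3 = zt 3 / (zt 3 / Real.pi ^ 3) := by
      have := zt3_pos.ne'
      have := Real.pi_ne_zero
      field_simp
    rw [h3]
    exact (clF T).div_mem h1 h2
  refine EE_mem hx he h0 (l + 1) (fun k hk hk' => ?_) (by exact_mod_cast hd)
  refine zt_all hpi (c + 1) (fun i hi => ?_) k hk ?_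
  · cases i with
    | zero => exact hcon 0
    | succ i =>
      have := hcon (Fin.succ (Fin.succ ⟨i, by omega⟩))
      simp only [con3, Fin.cons_succ] at this
      have e : 2 * (i + 1) + 3 = 2 * i + 5 := by ring
      rw [e]
      exact this
  · have := l.2
    omega

theorem trdeg_zeta {c r : ℕ} (y : Fin r → ℝ) (S : Finset (Fin (2 * c + 4) × ℚ))
    (hX : ∀ p ∈ S, 0 < p.2 ∧ Real.eulerMascheroniConstant + Real.log p.2 ∈ clF ({Real.exp 1} ∪ range y)) :
    ((S.card + 1 : ℕ) : Cardinal) ≤ Algebra.trdeg ℚ (IntermediateField.adjoin ℚ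
      ({Real.exp 1} ∪ range y ∪ range (con3 c) ∪ (fun p : Fin (2 * c + 4) × ℚ => dl (p.1 + 1) p.2) '' (S : Set _))) := by
  have h := EE_alg_S (2 * c + 4) (S : Set (Fin (2 * c + 4) × ℚ)) (fun p hp => (hX p hp).1)
  have h2 := trdeg_ge h (A := {Real.exp 1} ∪ range y ∪ range (con3 c) ∪
    (fun p : Fin (2 * c + 4) × ℚ => dl (p.1 + 1) p.2) '' (S : Set _)) ?_
  · refine le_trans (le_of_eq ?_) h2
    simp
  · intro o
    have he : Real.exp 1 ∈ clF ({Real.exp 1} ∪ range y ∪ range (con3 c) ∪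
      (fun p : Fin (2 * c + 4) × ℚ => dl (p.1 + 1) p.2) '' (S : Set _)) :=
      subset_clF _ (Or.inl (Or.inl (Or.inl rfl)))
    cases o with
    | none => exact he
    | some p =>
      simp only [Option.elim]
      refine mem_zeta (c := c) (fun i => subset_clF _ (Or.inl (Or.inr ⟨i, rfl⟩))) he p.1.1 p.1.2 (hX _ p.2).1 ?_ ?_
      · refine clF_mono ?_ (hX _ p.2).2
        exact subset_union_left.trans subset_union_left
      · exact subset_clF _ (Or.inr ⟨p.1, p.2, rfl⟩)

theorem trdeg_one {r : ℕ} (y : Fin r → ℝ) (S : Finset ℚ)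
    (hX : ∀ x ∈ S, 0 < x ∧ Real.eulerMascheroniConstant + Real.log x ∈ clF ({Real.exp 1} ∪ range y)) :
    ((S.card + 1 : ℕ) : Cardinal) ≤ Algebra.trdeg ℚ (IntermediateField.adjoin ℚ
      ({Real.exp 1} ∪ range y ∪ (fun x : ℚ => gz x) '' (S : Set ℚ))) := by
  have h := EE_alg_Q 1 (ι := S) (fun x => (x : ℚ)) Subtype.val_injective (fun x => (hX x x.2).1)
  have h2 := trdeg_ge h (A := {Real.exp 1} ∪ range y ∪ (fun x : ℚ => gz x) '' (S : Set ℚ)) ?_
  · refine le_trans (le_of_eq ?_) h2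
    simp
  · intro o
    have he : Real.exp 1 ∈ clF ({Real.exp 1} ∪ range y ∪ (fun x : ℚ => gz x) '' (S : Set ℚ)) :=
      subset_clF _ (Or.inl (Or.inl rfl))
    cases o with
    | none => exact he
    | some p =>
      simp only [Option.elim]
      have hx := (hX p.2 p.2.2).1
      have hx' : (0 : ℝ) < p.2 := by exact_mod_cast hx
      have h1 : p.1 = 0 := Subsingleton.elim _ _
      rw [h1]
      refine EE_mem hx he ?_ _ (fun k hk hk' => ?_) ?_
      · exact clF_mono subset_union_left (hX p.2 p.2.2).2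
      · simp at hk'
        omega
      · simp only [Fin.val_zero, zero_add]
        rw [dl_one hx']
        exact subset_clF _ (Or.inr ⟨p.2, p.2.2, rfl⟩)

end Pool.Agent.R352.E
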