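import Pool.Agent.R352.E.Rank
import Pool.Agent.R352.E.Siegel
import Pool.Agent.Y113.G.Est
import Pool.Agent.Y113.G.Lin

/-!
# E-functions: estimates for the derived vectors and the derived forms
-/

set_option autoImplicit false

open PowerSeries Finset.HasAntidiagonal

namespace Pool.Agent.R352.E

open Pool.Agent.Y113

/-- integer version of the derived vector for `T = q X` -/
noncomputable def nabZ {N : ℕ} (q : ℕ) (B : Fin N → Fin N → Polynomial ℤ) (P : Fin N → Polynomial ℤ) :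
    Fin N → Polynomial ℤ :=
  fun j => Polynomial.C (q : ℤ) * Polynomial.X * Polynomial.derivative (P j) + ∑ i, P i * B i j

/-- the polynomial `q X` -/
noncomputable def TQ (q : ℕ) : Polynomial ℚ := Polynomial.C (q : ℚ) * Polynomial.X

lemma nabZ_map {N : ℕ} (q : ℕ) (B : Fin N → Fin N → Polynomial ℤ) (k : ℕ) : ∀ (P : Fin N → Polynomial ℤ) (j : Fin N),
    ((nabZ q B)^[k] P j).map (Int.castRingHom ℚ) =
      (nab (TQ q) (fun i j => (B i j).map (Int.castRingHom ℚ)))^[k] (fun i => (P i).map (Int.castRingHom ℚ)) j := by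
  induction k with
  | zero => intro P j; rfl
  | succ k ih =>
    intro P j
    rw [Function.iterate_succ_apply, Function.iterate_succ_apply, ih]
    have h1 : (fun i => (nabZ q B P i).map (Int.castRingHom ℚ)) =
        nab (TQ q) (fun i j => (B i j).map (Int.castRingHom ℚ)) (fun i => (P i).map (Int.castRingHom ℚ)) := by
      funext i
      simp only [nabZ, nab, TQ, Polynomial.map_add, Polynomial.map_sum, Polynomial.map_mul, Polynomial.derivative_map,
        Polynomial.map_X, Polynomial.map_C]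
      simp
    rw [h1]

/-- sum of the absolute values of the coefficients -/
noncomputable def l1 (B : Polynomial ℤ) : ℝ := ∑ c ∈ B.support, |((B.coeff c : ℤ) : ℝ)|

lemma l1_nonneg (B : Polynomial ℤ) : 0 ≤ l1 B := Finset.sum_nonneg fun _ _ => abs_nonneg _

lemma coeff_mul_bound {P B : Polynomial ℤ} {A : ℝ} (hA : 0 ≤ A) (hP : ∀ l, |((P.coeff l : ℤ) : ℝ)| ≤ A) (l : ℕ) :
    |(((P * B).coeff l : ℤ) : ℝ)| ≤ A * l1 B := by
  rw [Polynomial.coeff_mul]
  push_cast
  refine (Finset.abs_sum_le_sum_abs _ _).trans ?_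
  have h1 : ∑ p ∈ antidiagonal l, |((P.coeff p.1 : ℤ) : ℝ) * ((B.coeff p.2 : ℤ) : ℝ)| ≤
      ∑ p ∈ antidiagonal l, A * |((B.coeff p.2 : ℤ) : ℝ)| := by
    refine Finset.sum_le_sum fun p _ => ?_
    rw [abs_mul]
    exact mul_le_mul_of_nonneg_right (hP _) (abs_nonneg _)
  refine h1.trans ?_
  rw [← Finset.mul_sum]
  refine mul_le_mul_of_nonneg_left ?_ hA
  have h2 : ∑ p ∈ antidiagonal l, |((B.coeff p.2 : ℤ) : ℝ)| = ∑ c ∈ Finset.range (l + 1), |((B.coeff c : ℤ) : ℝ)| := by
    rw [Finset.Nat.sum_antidiagonal_eq_sum_range_succ_mk]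
    simp only
    rw [← Finset.sum_range_reflect]
    refine Finset.sum_congr rfl fun j hj => ?_
    rw [Finset.mem_range] at hj
    rw [show l - (l + 1 - 1 - j) = j by omega]
  rw [h2, l1]
  calc ∑ c ∈ Finset.range (l + 1), |((B.coeff c : ℤ) : ℝ)|
      = ∑ c ∈ (Finset.range (l + 1)).filter (fun c => c ∈ B.support), |((B.coeff c : ℤ) : ℝ)| := by
        rw [Finset.sum_filter]
        refine Finset.sum_congr rfl fun c _ => ?_
        split_ifs with h
        · rfl
        · rw [Polynomial.notMem_support_iff.1 h]; simp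
    _ ≤ ∑ c ∈ B.support, |((B.coeff c : ℤ) : ℝ)| := by
        apply Finset.sum_le_sum_of_subset_of_nonneg
        · intro c hc
          exact (Finset.mem_filter.1 hc).2
        · intro _ _ _; exact abs_nonneg _

section It

variable {N q b : ℕ} {β : ℝ} {B : Fin N → Fin N → Polynomial ℤ}

lemma nabZ_step (hb : 1 ≤ b) (hB : ∀ i j, (B i j).natDegree ≤ b) (hβ : ∀ j, ∑ i, l1 (B i j) ≤ β)
    {P : Fin N → Polynomial ℤ} {n : ℕ} {A : ℝ} (hA : 0 ≤ A) (hPn : ∀ i, (P i).natDegree ≤ n)
    (hP : ∀ i l, |(((P i).coeff l : ℤ) : ℝ)| ≤ A) :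
    (∀ j, (nabZ q B P j).natDegree ≤ n + b) ∧ ∀ j l, |(((nabZ q B P j).coeff l : ℤ) : ℝ)| ≤ (q * n + β) * A := by
  refine ⟨fun j => ?_, fun j l => ?_⟩
  · unfold nabZ
    refine (Polynomial.natDegree_add_le _ _).trans (max_le ?_ ?_)
    · refine Polynomial.natDegree_mul_le.trans ?_
      have h1 : (Polynomial.C (q : ℤ) * Polynomial.X).natDegree ≤ 1 :=
        (Polynomial.natDegree_C_mul_le _ _).trans Polynomial.natDegree_X_le
      have h2 := Polynomial.natDegree_derivative_le (P j)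
      have h3 := hPn j
      omega
    · refine Polynomial.natDegree_sum_le_of_forall_le _ _ fun i _ => ?_
      refine Polynomial.natDegree_mul_le.trans ?_
      have := hPn i
      have := hB i j
      omega
  · unfold nabZ
    rw [Polynomial.coeff_add, Polynomial.finsetSum_coeff]
    push_cast
    refine (abs_add_le _ _).trans ?_
    rw [add_mul]
    refine add_le_add ?_ ?_
    · rw [mul_assoc, Polynomial.coeff_C_mul]
      push_cast
      rw [abs_mul, Nat.abs_cast, mul_assoc]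
      refine mul_le_mul_of_nonneg_left ?_ (by positivity)
      rcases l with _ | l
      · rw [Polynomial.mul_coeff_zero]
        simp
        positivity
      · rw [mul_comm, Polynomial.coeff_mul_X, Polynomial.coeff_derivative]
        push_cast
        rw [abs_mul]
        rcases le_or_gt (l + 1) n with h | h
        · rw [mul_comm]
          refine mul_le_mul ?_ (hP _ _) (abs_nonneg _) (by positivity)
          rw [abs_of_nonneg (by positivity)]
          exact_mod_cast h
        · rw [Polynomial.coeff_eq_zero_of_natDegree_lt (by have := hPn j; omega)]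
          simp
          positivity
    · refine (Finset.abs_sum_le_sum_abs _ _).trans ?_
      refine (Finset.sum_le_sum fun i _ => coeff_mul_bound hA (hP i) l).trans ?_
      rw [← Finset.mul_sum, mul_comm]
      exact mul_le_mul_of_nonneg_right (hβ j) hA

lemma nabZ_iter (hb : 1 ≤ b) (hB : ∀ i j, (B i j).natDegree ≤ b) (hβ : ∀ j, ∑ i, l1 (B i j) ≤ β) (hβ0 : 0 ≤ β)
    {P : Fin N → Polynomial ℤ} {n K : ℕ} {A : ℝ} (hA : 0 ≤ A) (hPn : ∀ i, (P i).natDegree ≤ n)
    (hP : ∀ i l, |(((P i).coeff l : ℤ) : ℝ)| ≤ A) (k : ℕ) (hk : k ≤ K) :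
    (∀ j, ((nabZ q B)^[k] P j).natDegree ≤ n + k * b) ∧
      ∀ j l, |((((nabZ q B)^[k] P j).coeff l : ℤ) : ℝ)| ≤ (q * (n + K * b : ℕ) + β) ^ k * A := by
  induction k with
  | zero => simpa using ⟨hPn, hP⟩
  | succ k ih =>
    obtain ⟨h1, h2⟩ := ih (by omega)
    have hX0 : (0 : ℝ) ≤ q * (n + K * b : ℕ) + β := by positivity
    have h3 := nabZ_step (q := q) hb hB hβ (P := (nabZ q B)^[k] P) (n := n + k * b)
      (A := (q * (n + K * b : ℕ) + β) ^ k * A) (by positivity) h1 h2
    rw [Function.iterate_succ_apply']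
    refine ⟨fun j => (h3.1 j).trans (by ring_nf; omega), fun j l => (h3.2 j l).trans ?_⟩
    rw [pow_succ', mul_assoc]
    refine mul_le_mul_of_nonneg_right ?_ (by positivity)
    have h4 : n + k * b ≤ n + K * b := Nat.add_le_add_left (Nat.mul_le_mul_right _ (by omega)) _
    have h5 : ((n + k * b : ℕ) : ℝ) ≤ ((n + K * b : ℕ) : ℝ) := by exact_mod_cast h4
    have h6 : (q : ℝ) * ((n + k * b : ℕ) : ℝ) ≤ q * ((n + K * b : ℕ) : ℝ) := mul_le_mul_of_nonneg_left h5 (by positivity)
    linarith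

end It

/-- the coefficients of `(q X D)^k f` -/
lemma coeff_theta (q k : ℕ) (f : ℚ⟦X⟧) (l : ℕ) :
    coeff l ((fun f => (TQ q : ℚ⟦X⟧) * d⁄dX ℚ f)^[k] f) = ((q : ℚ) * l) ^ k * coeff l f := by
  induction k generalizing f with
  | zero => simp
  | succ k ih =>
    rw [Function.iterate_succ_apply, ih]
    have h1 : coeff l ((TQ q : ℚ⟦X⟧) * d⁄dX ℚ f) = (q : ℚ) * l * coeff l f := by
      rw [TQ, Polynomial.coe_mul, Polynomial.coe_C, Polynomial.coe_X, mul_assoc, coeff_C_mul]
      rcases l with _ | l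
      · simp
      · rw [coeff_succ_X_mul, coeff_derivative]
        push_cast
        ring
    rw [h1, pow_succ]
    ring

/-- tail of the exponential series -/
lemma exp_tail {D : ℝ} (hD : 0 ≤ D) (m₀ : ℕ) (f : ℕ → ℝ) (h0 : ∀ l < m₀, f l = 0)
    (h1 : ∀ l, |f l| ≤ D ^ l / l.factorial) :
    Summable (fun l => |f l|) ∧ |∑' l, f l| ≤ D ^ m₀ / m₀.factorial * Real.exp D := by
  have hs : Summable (fun l : ℕ => D ^ l / (l.factorial : ℝ)) := Real.summable_pow_div_factorial D
  have hsf : Summable (fun l => |f l|) := Summable.of_nonneg_of_le (fun l => abs_nonneg _) h1 hs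
  refine ⟨hsf, ?_⟩
  have hsf' : Summable f := hsf.of_abs
  have h2 : ∑' l, f l = ∑' l, f (l + m₀) := by
    rw [← hsf'.sum_add_tsum_nat_add m₀, Finset.sum_eq_zero fun l hl => h0 l (Finset.mem_range.1 hl), zero_add]
  rw [h2]
  have h3 : ∀ l, |f (l + m₀)| ≤ D ^ m₀ / m₀.factorial * (D ^ l / l.factorial) := by
    intro l
    refine (h1 _).trans ?_
    rw [pow_add, div_mul_div_comm, mul_comm (D ^ l)]
    refine div_le_div_of_nonneg_left (by positivity) (by positivity) ?_
    have : m₀.factorial * l.factorial ≤ (l + m₀).factorial := by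
      rw [mul_comm]
      exact Nat.le_of_dvd (Nat.factorial_pos _) (Nat.factorial_mul_factorial_dvd_factorial_add l m₀)
    exact_mod_cast this
  have h4 : HasSum (fun l : ℕ => D ^ m₀ / m₀.factorial * (D ^ l / l.factorial)) (D ^ m₀ / m₀.factorial * Real.exp D) := by
    apply HasSum.mul_left
    rw [Real.exp_eq_exp_ℝ]
    exact NormedSpace.expSeries_div_hasSum_exp D
  rw [← Real.norm_eq_abs]
  exact tsum_of_norm_bounded h4 fun l => by rw [Real.norm_eq_abs]; exact h3 l

/-- the value of a derived form -/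
lemma form_small {f : ℚ⟦X⟧} {C H : ℝ} (hC : 1 ≤ C) (hH : 0 ≤ H) {m₀ : ℕ} (h0 : ∀ l < m₀, coeff l f = 0)
    (hf : ∀ l, |((cf l f : ℚ) : ℝ)| ≤ H * (2 * C) ^ l) (q k K : ℕ) (hq : 1 ≤ q) (hk : k ≤ K) :
    Cv 1 ((fun f => (TQ q : ℚ⟦X⟧) * d⁄dX ℚ f)^[k] f) ∧
    |ev 1 ((fun f => (TQ q : ℚ⟦X⟧) * d⁄dX ℚ f)^[k] f)| ≤
      H * (q : ℝ) ^ K * K.factorial * ((2 * C * Real.exp 1) ^ m₀ / m₀.factorial * Real.exp (2 * C * Real.exp 1)) := by
  set W : ℝ := H * (q : ℝ) ^ K * K.factorial with hW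
  set D : ℝ := 2 * C * Real.exp 1 with hD
  have hD0 : 0 ≤ D := by positivity
  have hq1 : (1 : ℝ) ≤ q := by exact_mod_cast hq
  have hW0 : 0 ≤ W := by positivity
  have hcf : ∀ l, |((coeff l f : ℚ) : ℝ)| ≤ H * (2 * C) ^ l / l.factorial := by
    intro l
    rw [le_div_iff₀ (by positivity)]
    have h1 := hf l
    rw [cf] at h1
    push_cast at h1
    rw [abs_mul, Nat.abs_cast] at h1
    linarith
  have hb : ∀ l, |((coeff l ((fun f => (TQ q : ℚ⟦X⟧) * d⁄dX ℚ f)^[k] f) : ℚ) : ℝ)| ≤ W * (D ^ l / l.factorial) := by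
    intro l
    rw [coeff_theta]
    push_cast
    rw [abs_mul, abs_pow, abs_of_nonneg (by positivity : (0 : ℝ) ≤ (q : ℝ) * l), mul_pow]
    have h2 : (l : ℝ) ^ k ≤ K.factorial * Real.exp 1 ^ l := by
      have h3 := Real.pow_div_factorial_le_exp (l : ℝ) (by positivity) k
      rw [div_le_iff₀ (by positivity)] at h3
      have h4 : (k.factorial : ℝ) ≤ K.factorial := by exact_mod_cast Nat.factorial_le hk
      have h5 : Real.exp (l : ℝ) = Real.exp 1 ^ l := by rw [← Real.exp_nat_mul, mul_one]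
      rw [h5] at h3
      calc (l : ℝ) ^ k ≤ Real.exp 1 ^ l * k.factorial := h3
        _ ≤ Real.exp 1 ^ l * K.factorial := mul_le_mul_of_nonneg_left h4 (by positivity)
        _ = _ := mul_comm _ _
    have h6 : (q : ℝ) ^ k ≤ (q : ℝ) ^ K := pow_le_pow_right₀ hq1 hk
    calc (q : ℝ) ^ k * (l : ℝ) ^ k * |((coeff l f : ℚ) : ℝ)|
        ≤ (q : ℝ) ^ K * (K.factorial * Real.exp 1 ^ l) * (H * (2 * C) ^ l / l.factorial) := by
          refine mul_le_mul (mul_le_mul h6 h2 (by positivity) (by positivity)) (hcf l) (abs_nonneg _) (by positivity)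
      _ = W * (D ^ l / l.factorial) := by
          rw [hW, hD, mul_pow]; ring
  by_cases hW1 : W = 0
  · have hz : ∀ l, ((coeff l ((fun f => (TQ q : ℚ⟦X⟧) * d⁄dX ℚ f)^[k] f) : ℚ) : ℝ) = 0 := by
      intro l
      have := hb l
      rw [hW1, zero_mul] at this
      exact abs_nonpos_iff.1 this
    refine ⟨?_, ?_⟩
    · unfold Cv
      simp only [hz, abs_zero, zero_mul]
      exact summable_zero
    · unfold ev
      simp only [hz, zero_mul, tsum_zero, abs_zero]
      rw [hW1]; simp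
  have hWpos : 0 < W := lt_of_le_of_ne hW0 (Ne.symm hW1)
  have h7 := exp_tail hD0 m₀ (fun l => ((coeff l ((fun f => (TQ q : ℚ⟦X⟧) * d⁄dX ℚ f)^[k] f) : ℚ) : ℝ) / W)
    (fun l hl => by simp only [coeff_theta, h0 l hl, mul_zero, Rat.cast_zero, zero_div])
    (fun l => by
      rw [abs_div, abs_of_pos hWpos, div_le_iff₀ hWpos, mul_comm]
      exact hb l)
  refine ⟨?_, ?_⟩
  · unfold Cv
    have h8 := h7.1.mul_left W
    refine h8.congr fun l => ?_
    rw [abs_div, abs_of_pos hWpos, mul_div_cancel₀ _ hW1]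
    simp
  · have h9 : ev 1 ((fun f => (TQ q : ℚ⟦X⟧) * d⁄dX ℚ f)^[k] f) =
        W * ∑' l, ((coeff l ((fun f => (TQ q : ℚ⟦X⟧) * d⁄dX ℚ f)^[k] f) : ℚ) : ℝ) / W := by
      unfold ev
      rw [← tsum_mul_left]
      refine tsum_congr fun l => ?_
      rw [mul_div_cancel₀ _ hW1]
      simp
    rw [h9, abs_mul, abs_of_pos hWpos]
    exact mul_le_mul_of_nonneg_left h7.2 hW0

end Pool.Agent.R352.E
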