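import Pool.Agent.R352.E.Rel2
import Pool.Agent.R352.E.Mat

/-!
# Families of values at positive rational points
-/

set_option autoImplicit false

open Filter Topology Set MeasureTheory

namespace Pool.Agent.R352.E

lemma exp_pow_int (n : ℤ) : Real.exp n = Real.exp 1 ^ n := by
  rw [← Real.rpow_intCast, ← Real.exp_mul, one_mul]

lemma exp_rat_mem {T : Set ℝ} (h : Real.exp 1 ∈ clF T) (x : ℚ) : Real.exp x ∈ clF T := by
  refine of_pow (n := x.den) x.den_ne_zero ?_
  rw [← Real.exp_nat_mul]
  have h1 : (x.den : ℝ) * (x : ℝ) = (x.num : ℝ) := by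
    have := Rat.den_mul_eq_num x
    exact_mod_cast this
  rw [h1, exp_pow_int]
  exact (clF T).zpow_mem h _

lemma rat_mem (T : Set ℝ) (x : ℚ) : (x : ℝ) ∈ clF T := SubfieldClass.ratCast_mem _ _

lemma EE_alg_fin (J : ℕ) {k : ℕ} (x : Fin k → ℚ) (hinj : Function.Injective x) (hpos : ∀ i, 0 < x i) :
    AlgebraicIndependent ℚ (fun o : Option (Fin J × Fin k) => o.elim (Real.exp 1) (fun p => EE (p.1 + 1) (x p.2))) := by
  set q : ℕ := ∏ i, (x i).den with hqd
  have hq : 1 ≤ q := Nat.one_le_iff_ne_zero.2 (Finset.prod_ne_zero_iff.2 fun i _ => (x i).den_ne_zero)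
  have hq' : (q : ℝ) ≠ 0 := by positivity
  have hm : ∀ i, ∃ m : ℕ, 1 ≤ m ∧ (m : ℝ) / q = x i := by
    intro i
    obtain ⟨c, hc⟩ := Finset.dvd_prod_of_mem (fun i => (x i).den) (Finset.mem_univ i)
    have hc' : q = (x i).den * c := hc
    have hnum : 0 < (x i).num := Rat.num_pos.2 (hpos i)
    have hc0 : c ≠ 0 := by
      rintro rfl
      rw [mul_zero] at hc'
      omega
    refine ⟨(x i).num.toNat * c, ?_, ?_⟩
    · have h1 : 1 ≤ (x i).num.toNat := by omega
      exact Nat.one_le_iff_ne_zero.2 (Nat.mul_ne_zero (by omega) hc0)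
    · have h2 : (((x i).num.toNat : ℕ) : ℝ) = ((x i).num : ℝ) := by
        have : (((x i).num.toNat : ℕ) : ℤ) = (x i).num := Int.toNat_of_nonneg hnum.le
        exact_mod_cast this
      have h3 : ((x i : ℚ) : ℝ) = ((x i).num : ℝ) / ((x i).den : ℝ) := by
        exact_mod_cast (Rat.num_div_den (x i)).symm
      rw [hc', h3]
      push_cast
      rw [h2]
      have : ((x i).den : ℝ) ≠ 0 := by exact_mod_cast (x i).den_ne_zero
      have : (c : ℝ) ≠ 0 := by exact_mod_cast hc0
      field_simp
  choose mm hmm using hm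
  have hinj' : Function.Injective mm := by
    intro i j hij
    apply hinj
    have h1 := (hmm i).2
    rw [hij, (hmm j).2] at h1
    exact_mod_cast h1.symm
  have h := EE_alg J k mm hinj' (fun i => (hmm i).1) hq
  refine indep_of_span h (fun o => ?_) le_rfl
  cases o with
  | none =>
    simp only [Option.elim]
    refine of_pow (n := q) (by omega) ?_
    rw [← Real.exp_nat_mul]
    have h1 : (q : ℝ) * (-1 / q) = -1 := by field_simp
    rw [h1, Real.exp_neg]
    refine (clF _).inv_mem (subset_clF _ ⟨none, rfl⟩)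
  | some p =>
    simp only [Option.elim]
    rw [(hmm p.2).2]
    exact subset_clF _ ⟨some p, rfl⟩

/-- **Algebraic independence** of `e` and the numbers `E_l(x)`, `x` positive rational -/
theorem EE_alg_Q (J : ℕ) {ι : Type*} (x : ι → ℚ) (hinj : Function.Injective x) (hpos : ∀ i, 0 < x i) :
    AlgebraicIndependent ℚ (fun o : Option (Fin J × ι) => o.elim (Real.exp 1) (fun p => EE (p.1 + 1) (x p.2))) := by
  classical
  refine algebraicIndependent_of_finite_type fun t ht => ?_
  let s : Finset ι := ht.toFinset.biUnion fun o => o.elim ∅ (fun p => {p.2})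
  have hs : ∀ p : Fin J × ι, some p ∈ t → p.2 ∈ s := by
    intro p hp
    refine Finset.mem_biUnion.2 ⟨some p, ht.mem_toFinset.2 hp, ?_⟩
    simp
  let e := Fintype.equivFin s
  have h := EE_alg_fin J (k := Fintype.card s) (fun i => x (e.symm i)) (by
    intro i j hij
    have := hinj hij
    exact e.symm.injective (Subtype.ext this)) (fun i => hpos _)
  let f : t → Option (Fin J × Fin (Fintype.card s)) := fun o =>
    match o with
    | ⟨none, _⟩ => none
    | ⟨some p, hp⟩ => some (p.1, e ⟨p.2, hs p hp⟩)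
  have hf : Function.Injective f := by
    rintro ⟨o, ho⟩ ⟨o', ho'⟩ hoo
    cases o with
    | none =>
      cases o' with
      | none => rfl
      | some p' => exact absurd hoo (by simp [f])
    | some p =>
      cases o' with
      | none => exact absurd hoo (by simp [f])
      | some p' =>
        simp only [f, Option.some.injEq, Prod.mk.injEq] at hoo
        have h1 := e.injective hoo.2
        simp only [Subtype.mk.injEq] at h1
        have : p = p' := Prod.ext hoo.1 h1
        subst this
        rfl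
  have h2 := h.comp f hf
  convert h2 using 1
  ext ⟨o, ho⟩
  cases o with
  | none => rfl
  | some p => simp [f]

/-- counting -/
lemma count_gen {ι κ : Type*} [Fintype ι] [Fintype κ] {x : ι → ℝ} (hx : AlgebraicIndependent ℚ x) {y : κ → ℝ} {a : ℝ}
    (S : Finset κ) (hS : ∀ k ∈ S, y k ∈ clF {a}) (h : ∀ i, x i ∈ clF ({a} ∪ range y)) :
    Fintype.card ι + S.card ≤ 1 + Fintype.card κ := by
  classical
  have h1 : clF ({a} ∪ range y) ≤ clF ({a} ∪ y '' (Sᶜ : Finset κ)) := by
    refine clF_le ?_
    rintro z (hz | ⟨k, rfl⟩)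
    · exact subset_clF _ (Or.inl hz)
    · by_cases hk : k ∈ S
      · exact clF_mono subset_union_left (hS k hk)
      · refine subset_clF _ (Or.inr ⟨k, ?_, rfl⟩)
        simpa using hk
  have h2 := card_le hx (fun i => h1 (h i))
  have h3 : ({a} ∪ y '' (Sᶜ : Finset κ) : Set ℝ).encard ≤ ((1 + (Sᶜ : Finset κ).card : ℕ) : ℕ∞) := by
    refine (encard_union_le _ _).trans ?_
    rw [encard_singleton]
    have e : (((Sᶜ : Finset κ) : Set κ)).encard = ((Sᶜ : Finset κ).card : ℕ∞) := encard_coe_eq_coe_finsetCard _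
    rw [Nat.cast_add, Nat.cast_one, ← e]
    exact add_le_add le_rfl (encard_image_le _ _)
  have h4 : (Fintype.card ι : ℕ∞) ≤ ((1 + (Sᶜ : Finset κ).card : ℕ) : ℕ∞) := h2.trans ((Matroid.eRk_le_encard _ _).trans h3)
  have h5 : Fintype.card ι ≤ 1 + (Sᶜ : Finset κ).card := by exact_mod_cast h4
  rw [Finset.card_compl] at h5
  have h6 := Finset.card_le_univ S
  omega

/-- the values of the generators -/
noncomputable def gval {c r : ℕ} (J : ℕ) (con : Fin c → ℝ) (y : Fin r → ℝ) : Fin c ⊕ Fin r ⊕ (Fin J × ℚ) → ℝ :=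
  Sum.elim con (Sum.elim y (fun p => dl (p.1 + 1) p.2))

/-- the counting theorem, for constants `con` which together with `γ + log x` and `δ_l(x)` generate `E_l(x)` -/
theorem count_main {J c r : ℕ} (con : Fin c → ℝ) (y : Fin r → ℝ)
    (hJ : ∀ l : Fin J, ∀ x : ℚ, 0 < x → ∀ T : Set ℝ, (∀ i, con i ∈ clF T) → Real.exp 1 ∈ clF T →
      Real.eulerMascheroniConstant + Real.log x ∈ clF T → dl (l + 1) x ∈ clF T → EE (l + 1) x ∈ clF T)
    (S : Finset (Fin c ⊕ Fin r ⊕ (Fin J × ℚ))) (hS : ∀ i ∈ S, gval J con y i ∈ clF {Real.exp 1})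
    (hX : ∀ p : Fin J × ℚ, Sum.inr (Sum.inr p) ∈ S → 0 < p.2 ∧
      Real.eulerMascheroniConstant + Real.log p.2 ∈ clF ({Real.exp 1} ∪ range y)) : S.card ≤ c + r := by
  classical
  let X : Finset ℚ := S.biUnion fun i => Sum.elim (fun _ => ∅) (Sum.elim (fun _ => ∅) (fun p => {p.2})) i
  have hXm : ∀ p : Fin J × ℚ, Sum.inr (Sum.inr p) ∈ S → p.2 ∈ X := by
    intro p hp
    exact Finset.mem_biUnion.2 ⟨_, hp, by simp⟩
  have hXp : ∀ x ∈ X, 0 < x ∧ Real.eulerMascheroniConstant + Real.log x ∈ clF ({Real.exp 1} ∪ range y) := by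
    intro x hx
    obtain ⟨i, hi, hxi⟩ := Finset.mem_biUnion.1 hx
    rcases i with i | i | p
    · simp at hxi
    · simp at hxi
    · simp at hxi
      subst hxi
      exact hX p hi
  -- the family
  have hAI := EE_alg_Q J (ι := X) (fun x => (x : ℚ)) Subtype.val_injective (fun x => (hXp x x.2).1)
  let κ := Fin c ⊕ Fin r ⊕ (Fin J × X)
  let emb : κ → Fin c ⊕ Fin r ⊕ (Fin J × ℚ) := Sum.map id (Sum.map id (Prod.map id Subtype.val))
  have hemb : Function.Injective emb := by
    refine Function.Injective.sumMap Function.injective_id (Function.Injective.sumMap Function.injective_id ?_)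
    exact Function.Injective.prodMap Function.injective_id Subtype.val_injective
  let yy : κ → ℝ := fun k => gval J con y (emb k)
  let S' : Finset κ := S.preimage emb hemb.injOn
  have hS'card : S'.card = S.card := by
    rw [Finset.card_preimage, Finset.filter_true_of_mem]
    intro i hi
    rcases i with i | i | p
    · exact ⟨Sum.inl i, rfl⟩
    · exact ⟨Sum.inr (Sum.inl i), rfl⟩
    · exact ⟨Sum.inr (Sum.inr (p.1, ⟨p.2, hXm p hi⟩)), rfl⟩
  have key := count_gen hAI (y := yy) (a := Real.exp 1) S' (fun k hk => hS _ (Finset.mem_preimage.1 hk)) ?_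
  · simp only [Fintype.card_option, Fintype.card_prod, Fintype.card_fin, Fintype.card_coe, κ, Fintype.card_sum, hS'card] at key
    omega
  · intro o
    have he : Real.exp 1 ∈ clF ({Real.exp 1} ∪ range yy) := subset_clF _ (Or.inl rfl)
    cases o with
    | none => exact he
    | some p =>
      simp only [Option.elim]
      refine hJ p.1 p.2 (hXp p.2 p.2.2).1 _ (fun i => subset_clF _ (Or.inr ⟨Sum.inl i, rfl⟩)) he ?_
        (subset_clF _ (Or.inr ⟨Sum.inr (Sum.inr p), rfl⟩))
      refine clF_mono ?_ (hXp p.2 p.2.2).2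
      refine union_subset_union_right _ ?_
      rintro _ ⟨i, rfl⟩
      exact ⟨Sum.inr (Sum.inl i), rfl⟩

end Pool.Agent.R352.E
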