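import Pool.Agent.R352.E.Fam

/-!
# All moments of the logarithm and the zeta values
-/

set_option autoImplicit false

open Filter Topology Set MeasureTheory Complex

namespace Pool.Agent.R352.E

/-- the derivative of order `i + 1` of the digamma function -/
noncomputable def pdx (i : ℕ) (s : ℂ) : ℂ :=
  (-1) ^ i * (i + 1).factorial * (1 / s ^ (i + 2) + ∑' n : ℕ, 1 / (s + ((n : ℂ) + 1)) ^ (i + 2))

/-- the derivatives of the digamma function -/
noncomputable def pd : ℕ → ℂ → ℂ
  | 0 => psi
  | (i + 1) => pdx i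

lemma pow_le_aux {s : ℂ} (hs : 0 < s.re) (n m : ℕ) : ((n : ℝ) + 1) ^ 2 ≤ ‖s + ((n : ℂ) + 1)‖ ^ (m + 2) := by
  calc ((n : ℝ) + 1) ^ 2 ≤ ((n : ℝ) + 1) ^ (m + 2) :=
        pow_le_pow_right₀ (by linarith [show (0 : ℝ) ≤ n by positivity]) (by omega)
    _ ≤ _ := pow_le_pow_left₀ (by positivity) (norm_add_ge hs n) _

lemma pdx_deriv (i : ℕ) {s : ℂ} (hs : 0 < s.re) : HasDerivAt (pdx i) (pdx (i + 1) s) s := by
  have hs0 : s ≠ 0 := by rintro rfl; simp at hs
  have hpow : ∀ c : ℂ, ∀ y : ℂ, y + c ≠ 0 →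
      HasDerivAt (fun z : ℂ => 1 / (z + c) ^ (i + 2)) (-((i : ℂ) + 2) / (y + c) ^ (i + 3)) y := by
    intro c y hy
    have h2 : HasDerivAt (fun z : ℂ => z + c) 1 y := (hasDerivAt_id y).add_const _
    have h3 := (h2.pow (i + 2)).inv (pow_ne_zero (i + 2) hy)
    refine (h3.congr_deriv ?_).congr_of_eventuallyEq (Eventually.of_forall fun z => ?_)
    · have e : ((fun z : ℂ => z + c) ^ (i + 2)) y = (y + c) ^ (i + 2) := rfl
      rw [e, div_eq_div_iff (pow_ne_zero _ (pow_ne_zero _ hy)) (pow_ne_zero _ hy)]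
      have : i + 2 - 1 = i + 1 := by omega
      simp only [this]
      push_cast
      ring
    · simp
  have h1 : HasDerivAt (fun z : ℂ => ∑' n : ℕ, 1 / (z + ((n : ℂ) + 1)) ^ (i + 2))
      (∑' n : ℕ, -((i : ℂ) + 2) / (s + ((n : ℂ) + 1)) ^ (i + 3)) s := by
    refine hasDerivAt_tsum_of_isPreconnected (u := fun n : ℕ => ((i : ℝ) + 2) * (1 / ((n : ℝ) + 1) ^ 2))
      (H370.DG.summable_inv_sq.mul_left _)
      isOpen_half (convex_halfSpace_re_gt 0).isPreconnected (g := fun (n : ℕ) (z : ℂ) => 1 / (z + ((n : ℂ) + 1)) ^ (i + 2))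
      (g' := fun (n : ℕ) (z : ℂ) => -((i : ℂ) + 2) / (z + ((n : ℂ) + 1)) ^ (i + 3)) ?_ ?_ (y₀ := s) hs ?_ hs
    · intro n y hy
      exact hpow _ y (ne_add hy n)
    · intro n y hy
      rw [norm_div, norm_neg, norm_pow]
      have h5 := pow_le_aux hy n (i + 1)
      have h6 : ‖((i : ℂ) + 2)‖ = (i : ℝ) + 2 := by
        have : ((i : ℂ) + 2) = (((i : ℝ) + 2 : ℝ) : ℂ) := by push_cast; rfl
        rw [this, norm_real, Real.norm_eq_abs, abs_of_nonneg (by positivity)]
      rw [h6, mul_one_div]
      exact div_le_div_of_nonneg_left (by positivity) (by positivity) h5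
    · refine Summable.of_norm_bounded H370.DG.summable_inv_sq fun n => ?_
      rw [norm_div, norm_one, norm_pow]
      exact one_div_le_one_div_of_le (by positivity) (pow_le_aux hs n i)
  have h2 : HasDerivAt (fun z : ℂ => 1 / z ^ (i + 2)) (-((i : ℂ) + 2) / s ^ (i + 3)) s := by
    have := hpow 0 s (by simpa using hs0)
    simpa using this
  have h3 := (h2.add h1).const_mul ((-1 : ℂ) ^ i * (i + 1).factorial)
  refine (h3.congr_deriv ?_)
  rw [pdx, Nat.factorial_succ (i + 1)]
  have e1 : ∑' n : ℕ, -((i : ℂ) + 2) / (s + ((n : ℂ) + 1)) ^ (i + 3) =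
      -((i : ℂ) + 2) * ∑' n : ℕ, 1 / (s + ((n : ℂ) + 1)) ^ (i + 3) := by
    rw [← tsum_mul_left]
    refine tsum_congr fun n => ?_
    ring
  rw [e1]
  have e2 : i + 1 + 2 = i + 3 := by ring
  rw [e2]
  push_cast
  ring

lemma pd_deriv (i : ℕ) {s : ℂ} (hs : 0 < s.re) : HasDerivAt (pd i) (pd (i + 1) s) s := by
  cases i with
  | zero =>
    refine (psi_deriv hs).congr_deriv ?_
    simp [pd, pdx, psi1]
  | succ i => exact pdx_deriv i hs

/-- the recursion for the moments -/
lemma mellin_rec (n : ℕ) : ∀ s : ℂ, 0 < s.re → mellin (fl (n + 1)) s =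
    ∑ i ∈ Finset.range (n + 1), (n.choose i : ℂ) * (mellin (fl (n - i)) s * pd i s) := by
  induction n with
  | zero =>
    intro s hs
    rw [mellin1 s hs, G1]
    simp [mellin_fl_zero hs, pd]
  | succ n ih =>
    refine mellin_eq (n + 1) _ _ ih fun s hs => ?_
    have h1 := HasDerivAt.sum (u := Finset.range (n + 1))
      (A := fun i (s : ℂ) => (n.choose i : ℂ) * (mellin (fl (n - i)) s * pd i s))
      (fun i _ => (((mellin_fl (n - i) hs).2.mul (pd_deriv i hs)).const_mul (n.choose i : ℂ)))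
    have h2 : (∑ i ∈ Finset.range (n + 1), fun s : ℂ => (n.choose i : ℂ) * (mellin (fl (n - i)) s * pd i s))
        = fun s : ℂ => ∑ i ∈ Finset.range (n + 1), (n.choose i : ℂ) * (mellin (fl (n - i)) s * pd i s) := by
      ext y
      rw [Finset.sum_apply]
    rw [h2] at h1
    refine h1.congr_deriv ?_
    simp only [mul_add]
    rw [Finset.sum_add_distrib, Finset.sum_range_succ' _ (n + 1)]
    have h3 : ∑ i ∈ Finset.range (n + 1), ((n + 1).choose (i + 1) : ℂ) * (mellin (fl (n + 1 - (i + 1))) s * pd (i + 1) s)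
        = ∑ i ∈ Finset.range (n + 1), (n.choose i : ℂ) * (mellin (fl (n - i)) s * pd (i + 1) s) +
          ∑ i ∈ Finset.range (n + 1), (n.choose (i + 1) : ℂ) * (mellin (fl (n - i)) s * pd (i + 1) s) := by
      rw [← Finset.sum_add_distrib]
      refine Finset.sum_congr rfl fun i _ => ?_
      rw [Nat.choose_succ_succ, Nat.add_sub_add_right]
      push_cast
      ring
    rw [h3]
    have h4 : ∑ i ∈ Finset.range (n + 1), (n.choose i : ℂ) * (mellin (fl (n - i + 1)) s * pd i s)
        = ∑ i ∈ Finset.range (n + 1), (n.choose (i + 1) : ℂ) * (mellin (fl (n - i)) s * pd (i + 1) s)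
          + ((n + 1).choose 0 : ℂ) * (mellin (fl (n + 1 - 0)) s * pd 0 s) := by
      rw [Finset.sum_range_succ' _ n, Finset.sum_range_succ _ n]
      simp only [Nat.choose_succ_self, Nat.cast_zero, zero_mul, add_zero, Nat.choose_zero_right]
      congr 1
      refine Finset.sum_congr rfl fun i hi => ?_
      have : n - (i + 1) + 1 = n - i := by have := Finset.mem_range.1 hi; omega
      rw [this]
    rw [h4]
    ring

/-- the zeta values -/
noncomputable def zt (k : ℕ) : ℝ := ∑' n : ℕ, 1 / ((n : ℝ) + 1) ^ k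

lemma pdx_one (i : ℕ) : pdx i 1 = (((-1) ^ i * (i + 1).factorial * zt (i + 2) : ℝ) : ℂ) := by
  have h2 : Summable (fun n : ℕ => 1 / ((n : ℝ) + 1) ^ (i + 2)) := by
    have := (summable_nat_add_iff 1).2 (Real.summable_one_div_nat_pow.2 (show 1 < i + 2 by omega))
    refine this.congr fun n => ?_
    push_cast
    rfl
  have h3 : zt (i + 2) = 1 + ∑' n : ℕ, 1 / ((1 : ℝ) + ((n : ℝ) + 1)) ^ (i + 2) := by
    rw [zt, ← h2.sum_add_tsum_nat_add 1]
    simp only [Finset.sum_range_succ, Finset.sum_range_zero]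
    norm_num
    refine tsum_congr fun n => ?_
    ring_nf
  rw [pdx, h3]
  push_cast
  rw [one_pow, div_one]

/-- the derivatives of the digamma function at `1`, as real numbers -/
noncomputable def cc : ℕ → ℝ
  | 0 => -Real.eulerMascheroniConstant
  | (i + 1) => (-1) ^ i * (i + 1).factorial * zt (i + 2)

lemma pd_one (i : ℕ) : pd i 1 = ((cc i : ℝ) : ℂ) := by
  cases i with
  | zero => rw [pd, psi_one, cc]; push_cast; rfl
  | succ i => rw [pd, pdx_one, cc]

lemma mo_rec (n : ℕ) : mo (n + 1) = ∑ i ∈ Finset.range (n + 1), (n.choose i : ℝ) * (mo (n - i) * cc i) := by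
  have h := mellin_rec n 1 one_re_pos
  simp only [mellin_one, pd_one] at h
  have h2 : ((mo (n + 1) : ℝ) : ℂ) = ((∑ i ∈ Finset.range (n + 1), (n.choose i : ℝ) * (mo (n - i) * cc i) : ℝ) : ℂ) := by
    push_cast
    exact h
  exact_mod_cast h2

open PowerSeries in
/-- generating series -/
noncomputable def PA : PowerSeries ℝ := PowerSeries.mk fun n => mo n / n.factorial
noncomputable def PC : PowerSeries ℝ := PowerSeries.mk fun n => cc n / n.factorial
noncomputable def PE (a : ℝ) : PowerSeries ℝ := PowerSeries.mk fun n => a ^ n / n.factorial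

lemma dPA : PowerSeries.derivative ℝ PA = PA * PC := by
  ext n
  rw [PowerSeries.coeff_derivative, PowerSeries.coeff_mul]
  simp only [PA, PC, PowerSeries.coeff_mk]
  rw [mo_rec n, Finset.Nat.sum_antidiagonal_eq_sum_range_succ (fun i j => mo i / i.factorial * (cc j / j.factorial)),
    ← Finset.sum_range_reflect, Finset.sum_div, Finset.sum_mul]
  refine Finset.sum_congr rfl fun i hi => ?_
  have hi' : i ≤ n := by have := Finset.mem_range.1 hi; omega
  have e1 : n + 1 - 1 - i = n - i := by omega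
  have e2 : n - (n - i) = i := by omega
  rw [e1, e2, Nat.factorial_succ, Nat.choose_symm hi']
  have h3 : (n.choose i : ℝ) * i.factorial * (n - i).factorial = n.factorial := by
    exact_mod_cast Nat.choose_mul_factorial_mul_factorial hi'
  have h4 : (n.factorial : ℝ) ≠ 0 := by positivity
  have h5 : (i.factorial : ℝ) ≠ 0 := by positivity
  have h6 : ((n - i).factorial : ℝ) ≠ 0 := by positivity
  have h7 : ((n : ℝ) + 1) ≠ 0 := by positivity
  push_cast
  field_simp
  linear_combination (mo i * cc (n - i)) * h3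

lemma dPE (a : ℝ) : PowerSeries.derivative ℝ (PE a) = a • PE a := by
  ext n
  rw [PowerSeries.coeff_derivative, PowerSeries.coeff_smul]
  simp only [PE, PowerSeries.coeff_mk, smul_eq_mul]
  rw [Nat.factorial_succ]
  have h4 : (n.factorial : ℝ) ≠ 0 := by positivity
  have h7 : ((n : ℝ) + 1) ≠ 0 := by positivity
  push_cast
  field_simp
  rw [pow_succ]
  ring

/-- generating series of `NN l x / l!` -/
noncomputable def PB (x : ℝ) : PowerSeries ℝ := PE (-Real.log x) * PA

lemma coeff_PB (l : ℕ) (x : ℝ) : PowerSeries.coeff l (PB x) = NN l x / l.factorial := by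
  rw [PB, PowerSeries.coeff_mul]
  simp only [PA, PE, PowerSeries.coeff_mk]
  rw [Finset.Nat.sum_antidiagonal_eq_sum_range_succ (fun i j => (-Real.log x) ^ i / i.factorial * (mo j / j.factorial)),
    ← Finset.sum_range_reflect, NN, Finset.sum_div]
  refine Finset.sum_congr rfl fun i hi => ?_
  have hi' : i ≤ l := by have := Finset.mem_range.1 hi; omega
  have e1 : l + 1 - 1 - i = l - i := by omega
  have e2 : l - (l - i) = i := by omega
  rw [e1, e2, neg_pow]
  have h3 : (l.choose i : ℝ) * i.factorial * (l - i).factorial = l.factorial := by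
    exact_mod_cast Nat.choose_mul_factorial_mul_factorial hi'
  have h4 : (l.factorial : ℝ) ≠ 0 := by positivity
  have h5 : (i.factorial : ℝ) ≠ 0 := by positivity
  have h6 : ((l - i).factorial : ℝ) ≠ 0 := by positivity
  field_simp
  linear_combination (-(Real.log x ^ (l - i) * mo i)) * h3

lemma dPB (x : ℝ) : PowerSeries.derivative ℝ (PB x) = PB x * (PC - PowerSeries.C (Real.log x)) := by
  rw [PB, Derivation.leibniz, dPA, dPE]
  simp only [smul_eq_mul, neg_smul, PowerSeries.smul_eq_C_mul]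
  ring

/-- the coefficients of the generating series lie in the closure -/
lemma coeff_PB_mem {x : ℝ} {T : Set ℝ} (h0 : Real.eulerMascheroniConstant + Real.log x ∈ clF T) (J : ℕ)
    (hz : ∀ k, 2 ≤ k → k ≤ J → zt k ∈ clF T) : ∀ n ≤ J, PowerSeries.coeff n (PB x) ∈ clF T := by
  have hc : ∀ j < J, PowerSeries.coeff j (PC - PowerSeries.C (Real.log x)) ∈ clF T := by
    intro j hj
    rw [map_sub, PowerSeries.coeff_C, PC, PowerSeries.coeff_mk]
    cases j with
    | zero =>
      simp only [cc, Nat.factorial_zero, Nat.cast_one, div_one, if_true]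
      have := (clF T).neg_mem h0
      convert this using 1
      ring
    | succ j =>
      simp only [cc, Nat.succ_ne_zero, if_false, sub_zero]
      refine (clF T).div_mem ((clF T).mul_mem ((clF T).mul_mem ?_ ?_) (hz _ (by omega) (by omega))) ?_
      · exact (clF T).pow_mem ((clF T).neg_mem (clF T).one_mem) _
      · exact natCast_mem (clF T) _
      · exact natCast_mem (clF T) _
  intro n
  induction n using Nat.strong_induction_on with
  | _ n ih =>
    intro hn
    cases n with
    | zero =>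
      rw [coeff_PB, NN]
      simp [mo0]
    | succ n =>
      have h1 : PowerSeries.coeff n (PowerSeries.derivative ℝ (PB x)) =
          PowerSeries.coeff n (PB x * (PC - PowerSeries.C (Real.log x))) := by rw [dPB]
      rw [PowerSeries.coeff_derivative, PowerSeries.coeff_mul] at h1
      have h2 : PowerSeries.coeff (n + 1) (PB x) = (∑ p ∈ Finset.HasAntidiagonal.antidiagonal n, PowerSeries.coeff p.1 (PB x) *
          PowerSeries.coeff p.2 (PC - PowerSeries.C (Real.log x))) / ((n : ℝ) + 1) := by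
        rw [eq_div_iff (by positivity), h1]
      rw [h2]
      refine (clF T).div_mem ((clF T).sum_mem fun p hp => ?_) ?_
      · have hp' := Finset.HasAntidiagonal.mem_antidiagonal.1 hp
        exact (clF T).mul_mem (ih p.1 (by omega) (by omega)) (hc p.2 (by omega))
      · exact_mod_cast natCast_mem (clF T) (n + 1)

/-- membership of `E_l(x)` -/
lemma EE_mem {x : ℚ} (hx : 0 < x) {T : Set ℝ} (he : Real.exp 1 ∈ clF T)
    (h0 : Real.eulerMascheroniConstant + Real.log x ∈ clF T) (l : ℕ)
    (hz : ∀ k, 2 ≤ k → k ≤ l → zt k ∈ clF T) (hd : dl l x ∈ clF T) : EE l x ∈ clF T := by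
  have hx' : (0 : ℝ) < x := by exact_mod_cast hx
  have h1 : EE l x = (-1) ^ l * (PowerSeries.coeff l (PB x) - Real.exp ((-x : ℚ) : ℝ) * dl l x / l.factorial) := by
    rw [EE_rel l hx', coeff_PB]
    push_cast
    ring
  rw [h1]
  refine (clF T).mul_mem ((clF T).pow_mem ((clF T).neg_mem (clF T).one_mem) _) ((clF T).sub_mem ?_ ?_)
  · exact coeff_PB_mem h0 l hz l le_rfl
  · exact (clF T).div_mem ((clF T).mul_mem (exp_rat_mem he _) hd) (natCast_mem (clF T) _)

/-- even zeta values -/
lemma zt_even {T : Set ℝ} (hpi : Real.pi ∈ clF T) (k : ℕ) (hk : k ≠ 0) : zt (2 * k) ∈ clF T := by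
  have h1 := hasSum_zeta_nat hk
  have h2 : zt (2 * k) = (-1 : ℝ) ^ (k + 1) * (2 : ℝ) ^ (2 * k - 1) * Real.pi ^ (2 * k) * bernoulli (2 * k) / (2 * k).factorial := by
    rw [← h1.tsum_eq, zt]
    have hs : Summable (fun n : ℕ => 1 / (n : ℝ) ^ (2 * k)) := h1.summable
    rw [← hs.sum_add_tsum_nat_add 1]
    simp only [Finset.sum_range_succ, Finset.sum_range_zero, zero_add]
    have h0 : (0 : ℝ) ^ (2 * k) = 0 := zero_pow (by omega)
    rw [Nat.cast_zero, h0, div_zero, zero_add]
    refine tsum_congr fun n => ?_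
    push_cast
    rfl
  rw [h2]
  refine (clF T).div_mem ((clF T).mul_mem ((clF T).mul_mem ((clF T).mul_mem ?_ ?_) ((clF T).pow_mem hpi _)) ?_) (natCast_mem (clF T) _)
  · exact (clF T).pow_mem ((clF T).neg_mem (clF T).one_mem) _
  · refine (clF T).pow_mem ?_ _
    exact_mod_cast natCast_mem (clF T) 2
  · exact rat_mem T _

end Pool.Agent.R352.E
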