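import Pool.Agent.R352.E.Cnt

/-!
# The positive rational points at which the Gompertz function is algebraic
-/

set_option autoImplicit false

open Filter Topology Set MeasureTheory

namespace Pool.Agent.R352.E

lemma ai_gz (X : Set ℚ) (hX : ∀ x ∈ X, 0 < x ∧ gz x ∈ clF {Real.exp 1}) (y : X → ℝ)
    (hy : ∀ x : X, Real.eulerMascheroniConstant + Real.log (x : ℚ) ∈ clF {Real.exp 1, y x}) :
    AlgebraicIndependent ℚ (fun o : Option X => o.elim (Real.exp 1) y) := by
  classical
  refine algebraicIndependent_of_finite_type fun t ht => ?_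
  have := ht.fintype
  -- the finite set of points
  let F : Set (Option X) := insert none t
  have hF : F.Finite := ht.insert _
  have := hF.fintype
  have key : AlgebraicIndependent ℚ (fun o : F => (o : Option X).elim (Real.exp 1) y) := by
    have h := EE_alg_Q 1 (ι := X) (fun x => (x : ℚ)) Subtype.val_injective (fun x => (hX x x.2).1)
    let f : F → Option (Fin 1 × X) := fun o => (o : Option X).map fun x => (0, x)
    have hf : Function.Injective f := by
      intro o o' hoo
      refine Subtype.ext (Option.map_injective ?_ hoo)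
      intro a b hab
      exact (Prod.mk.inj hab).2
    refine indep_of_span (h.comp f hf) (fun o => ?_) le_rfl
    have he : Real.exp 1 ∈ clF (range fun o : F => (o : Option X).elim (Real.exp 1) y) :=
      subset_clF _ ⟨⟨none, Or.inl rfl⟩, rfl⟩
    obtain ⟨o, ho⟩ := o
    cases o with
    | none => exact he
    | some x =>
      have hx := (hX x x.2).1
      have hx' : (0 : ℝ) < (x : ℚ) := by exact_mod_cast hx
      have hle : clF {Real.exp 1} ≤ clF (range fun o : F => (o : Option X).elim (Real.exp 1) y) :=
        clF_le (singleton_subset_iff.2 he)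
      change EE ((0 : Fin 1) + 1) (x : ℚ) ∈ _
      refine EE_mem hx he ?_ _ (fun k hk hk' => ?_) ?_
      · refine clF_le ?_ (hy x)
        rintro z (rfl | rfl)
        · exact he
        · exact subset_clF _ ⟨⟨some x, ho⟩, rfl⟩
      · simp at hk'
        omega
      · simp only [Fin.val_zero, zero_add]
        rw [dl_one hx']
        exact hle (hX x x.2).2
  have h2 := key.comp (fun o : t => (⟨o.1, Or.inr o.2⟩ : F)) (by
    intro a b hab
    have := congrArg Subtype.val hab
    exact Subtype.ext this)
  exact h2

/-- no multiplicative relation of degree zero -/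
lemma gz_rel {X : Set ℚ} (hX : ∀ x ∈ X, 0 < x)
    (hAI : AlgebraicIndependent ℚ (fun o : Option X => o.elim (Real.exp 1)
      (fun x => Real.eulerMascheroniConstant + Real.log (x : ℚ))))
    (n : X →₀ ℤ) (h0 : n.sum (fun _ m => m) = 0) (h1 : n.prod (fun x m => (x : ℚ) ^ m) = 1) : n = 0 := by
  have hLI : LinearIndependent ℚ (fun x : X => Real.eulerMascheroniConstant + Real.log (x : ℚ)) :=
    (hAI.comp some (Option.some_injective _)).linearIndependent
  have h2 : ∑ x ∈ n.support, (n x : ℝ) * (Real.eulerMascheroniConstant + Real.log (x : ℚ)) = 0 := by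
    simp only [mul_add]
    rw [Finset.sum_add_distrib, ← Finset.sum_mul]
    have e1 : ∑ x ∈ n.support, (n x : ℝ) = 0 := by
      have : n.sum (fun _ m => m) = ∑ x ∈ n.support, n x := rfl
      rw [this] at h0
      exact_mod_cast congrArg (Int.cast : ℤ → ℝ) h0
    have e2 : ∑ x ∈ n.support, (n x : ℝ) * Real.log (x : ℚ) = 0 := by
      have h3 : Real.log ((n.prod (fun x m => (x : ℚ) ^ m) : ℚ) : ℝ) = ∑ x ∈ n.support, (n x : ℝ) * Real.log (x : ℚ) := by
        rw [Finsupp.prod]
        push_cast
        rw [Real.log_prod]
        · refine Finset.sum_congr rfl fun x _ => ?_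
          rw [Real.log_zpow]
        · intro x _
          have : ((x : ℚ) : ℝ) ≠ 0 := by exact_mod_cast (hX x x.2).ne'
          exact zpow_ne_zero _ this
      rw [← h3, h1]
      simp
    rw [e1, e2]
    ring
  have h4 := (linearIndependent_iff'.1 hLI) n.support (fun x => (n x : ℚ)) (by
    rw [← h2]
    refine Finset.sum_congr rfl fun x _ => ?_
    rw [Rat.smul_def]
    push_cast
    rfl)
  ext x
  by_cases hx : x ∈ n.support
  · have := h4 x hx
    exact_mod_cast this
  · simpa using hx

/-- few natural numbers -/
lemma gz_count {X : Set ℚ}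
    (hAI : AlgebraicIndependent ℚ (fun o : Option X => o.elim (Real.exp 1)
      (fun x => Real.eulerMascheroniConstant + Real.log (x : ℚ)))) (N : ℕ) (S : Finset ℕ)
    (hS : ∀ n ∈ S, 1 ≤ n ∧ n ≤ N ∧ (n : ℚ) ∈ X) : S.card ≤ Nat.primeCounting N + 1 := by
  classical
  let P : Finset ℕ := (Finset.range (N + 1)).filter Nat.Prime
  have hP : P.card = Nat.primeCounting N := by
    rw [Nat.primeCounting, Nat.primeCounting', Nat.count_eq_card_filter_range]
  have h1 : AlgebraicIndependent ℚ (fun n : S => Real.eulerMascheroniConstant + Real.log (n : ℕ)) := by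
    have := hAI.comp (fun n : S => some (⟨(n : ℕ), (hS n n.2).2.2⟩ : X)) (by
      intro a b hab
      simp only [Option.some.injEq, Subtype.mk.injEq, Nat.cast_inj] at hab
      exact Subtype.ext hab)
    convert this using 2
    simp
  have h2 := card_le_card h1 (y := fun o : Option P => o.elim Real.eulerMascheroniConstant fun p => Real.log (p : ℕ)) ?_
  · simp only [Fintype.card_coe, Fintype.card_option, hP] at h2
    exact h2
  · intro n
    refine Subfield.add_mem _ (subset_clF _ ⟨none, rfl⟩) ?_
    obtain ⟨h3, h4, -⟩ := hS n n.2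
    have h5 : Real.log (n : ℕ) = ∑ p ∈ (n : ℕ).primeFactors, ((n : ℕ).factorization p : ℝ) * Real.log p := by
      conv_lhs => rw [← Nat.prod_factorization_pow_eq_self (show (n : ℕ) ≠ 0 by omega)]
      rw [Finsupp.prod, Nat.support_factorization]
      push_cast
      rw [Real.log_prod]
      · refine Finset.sum_congr rfl fun p _ => ?_
        rw [Real.log_pow]
      · intro p hp
        have := (Nat.prime_of_mem_primeFactors hp).pos
        positivity
    rw [h5]
    refine Subfield.sum_mem _ fun p hp => Subfield.mul_mem _ (natCast_mem _ _) (subset_clF _ ⟨some ⟨p, ?_⟩, rfl⟩)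
    refine Finset.mem_filter.2 ⟨Finset.mem_range.2 ?_, Nat.prime_of_mem_primeFactors hp⟩
    have := Nat.le_of_dvd (by omega) (Nat.dvd_of_mem_primeFactors hp)
    omega

end Pool.Agent.R352.E
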