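import Pool.Agent.R352.E.Val
import Pool.Agent.R352.E.Gam

/-!
# The relation between the functions `E_l` and the incomplete moments of the logarithm
-/

set_option autoImplicit false

open Filter Topology Set MeasureTheory

namespace Pool.Agent.R352.E

/-- the derivative of `E_(l+1)` -/
noncomputable def ED (l : ℕ) (x : ℝ) : ℝ := ∑' m : ℕ, (-x) ^ m / ((m + 1).factorial * ((m : ℝ) + 1) ^ l)

lemma term_bound (l m : ℕ) {x R : ℝ} (hx : |x| ≤ R) :
    ‖(-x) ^ m / ((m + 1).factorial * ((m : ℝ) + 1) ^ l)‖ ≤ R ^ m / m.factorial := by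
  rw [norm_div, norm_pow, norm_neg, Real.norm_eq_abs, norm_mul, norm_pow, Real.norm_eq_abs, Real.norm_eq_abs,
    abs_of_nonneg (by positivity : (0 : ℝ) ≤ ((m + 1).factorial : ℝ)), abs_of_nonneg (by positivity : (0 : ℝ) ≤ (m : ℝ) + 1)]
  have h1 : |x| ^ m ≤ R ^ m := pow_le_pow_left₀ (abs_nonneg _) hx m
  have h2 : (m.factorial : ℝ) ≤ (m + 1).factorial * ((m : ℝ) + 1) ^ l := by
    have h3 : (m.factorial : ℝ) ≤ (m + 1).factorial := by exact_mod_cast Nat.factorial_le (Nat.le_succ m)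
    have h4 : (1 : ℝ) ≤ ((m : ℝ) + 1) ^ l := one_le_pow₀ (by linarith [show (0 : ℝ) ≤ m by positivity])
    calc (m.factorial : ℝ) ≤ (m + 1).factorial * 1 := by rw [mul_one]; exact h3
      _ ≤ _ := mul_le_mul_of_nonneg_left h4 (by positivity)
  exact div_le_div₀ (by linarith [pow_nonneg (abs_nonneg x) m]) h1 (by positivity) h2

lemma ED_summable (l : ℕ) (x : ℝ) : Summable (fun m : ℕ => (-x) ^ m / ((m + 1).factorial * ((m : ℝ) + 1) ^ l)) :=
  Summable.of_norm_bounded (Real.summable_pow_div_factorial |x|) fun m => term_bound l m le_rfl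

lemma EE_eq (l : ℕ) (x : ℝ) : EE l x = x * ED l x := by
  rw [EE, ED, ← tsum_mul_left]
  refine tsum_congr fun m => ?_
  rw [pow_succ]; ring

lemma EE_deriv (l : ℕ) (x : ℝ) : HasDerivAt (EE (l + 1)) (ED l x) x := by
  set R : ℝ := |x| + 1 with hR
  have hxb : x ∈ Metric.ball (0 : ℝ) R := by
    rw [mem_ball_zero_iff, Real.norm_eq_abs]; linarith
  have hs0 : Summable (fun m : ℕ => -(-x) ^ (m + 1) / ((m + 1).factorial * ((m : ℝ) + 1) ^ (l + 1))) := by
    have := (ED_summable (l + 1) x).mul_left x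
    refine this.congr fun m => ?_
    rw [pow_succ]; ring
  refine hasDerivAt_tsum_of_isPreconnected (u := fun m : ℕ => R ^ m / m.factorial) (Real.summable_pow_div_factorial R)
    Metric.isOpen_ball (convex_ball (0 : ℝ) R).isPreconnected
    (g := fun (m : ℕ) (y : ℝ) => -(-y) ^ (m + 1) / ((m + 1).factorial * ((m : ℝ) + 1) ^ (l + 1)))
    (g' := fun (m : ℕ) (y : ℝ) => (-y) ^ m / ((m + 1).factorial * ((m : ℝ) + 1) ^ l)) ?_ ?_ (y₀ := x) hxb hs0 hxb
  · intro m y _
    have h1 : HasDerivAt (fun y : ℝ => -(-y) ^ (m + 1)) (-((m + 1 : ℕ) * (-y) ^ m * -1)) y := by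
      have := (((hasDerivAt_neg y)).pow (m + 1)).neg
      exact this
    have h2 := h1.div_const (((m + 1).factorial : ℝ) * ((m : ℝ) + 1) ^ (l + 1))
    refine h2.congr_deriv ?_
    have h3 : (m : ℝ) + 1 ≠ 0 := by positivity
    have h4 : ((m + 1).factorial : ℝ) ≠ 0 := by positivity
    rw [pow_succ ((m : ℝ) + 1)]
    push_cast
    field_simp
  · intro m y hy
    rw [mem_ball_zero_iff, Real.norm_eq_abs] at hy
    exact term_bound l m hy.le

lemma EE_deriv' (l : ℕ) {x : ℝ} (hx : 0 < x) : HasDerivAt (EE (l + 1)) (EE l x / x) x := by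
  refine (EE_deriv l x).congr_deriv ?_
  rw [EE_eq, mul_div_cancel_left₀ _ hx.ne']

lemma EE_zero_right (l : ℕ) : EE l 0 = 0 := by rw [EE_eq, zero_mul]

lemma EE_zero_left (x : ℝ) : EE 0 x = 1 - Real.exp (-x) := by
  have h1 : Real.exp (-x) = ∑' m : ℕ, (-x) ^ m / (m.factorial : ℝ) := by
    rw [Real.exp_eq_exp_ℝ, NormedSpace.exp_eq_tsum_div]
  rw [h1, (Real.summable_pow_div_factorial (-x)).tsum_eq_zero_add, EE]
  simp only [pow_zero, Nat.factorial_zero, Nat.cast_one, div_one, mul_one, sub_add_cancel_left, ← tsum_neg]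
  refine tsum_congr fun m => ?_
  rw [neg_div]

lemma EE_tendsto (l : ℕ) : Tendsto (EE (l + 1)) (𝓝[>] 0) (𝓝 0) := by
  have h := (EE_deriv l 0).continuousAt.tendsto
  rw [EE_zero_right] at h
  exact h.mono_left nhdsWithin_le_nhds

/-- incomplete moments -/
noncomputable def Mi (n : ℕ) (x : ℝ) : ℝ := ∫ t in (0 : ℝ)..x, fr n t

lemma fr_interval (n : ℕ) {x : ℝ} (hx : 0 ≤ x) : IntervalIntegrable (fr n) volume 0 x := by
  rw [intervalIntegrable_iff_integrableOn_Ioc_of_le hx]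
  exact (fr_integrable n).mono_set Ioc_subset_Ioi_self

lemma Mi_deriv (n : ℕ) {x : ℝ} (hx : 0 < x) : HasDerivAt (Mi n) (fr n x) x := by
  have hc : ContinuousAt (fr n) x := (fr_cont n).continuousAt (Ioi_mem_nhds hx)
  refine intervalIntegral.integral_hasDerivAt_right (fr_interval n hx.le) ?_ hc
  exact ContinuousOn.stronglyMeasurableAtFilter isOpen_Ioi (fr_cont n) x hx

lemma mo_eq (n : ℕ) {x : ℝ} (hx : 0 < x) : mo n = Mi n x + ∫ t in Ioi x, fr n t := by
  rw [mo, Mi, intervalIntegral.integral_of_le hx.le, ← setIntegral_union, Ioc_union_Ioi_eq_Ioi hx.le]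
  · exact Set.Ioc_disjoint_Ioi le_rfl
  · exact measurableSet_Ioi
  · exact (fr_integrable n).mono_set Ioc_subset_Ioi_self
  · exact (fr_integrable n).mono_set (Ioi_subset_Ioi hx.le)

lemma abs_int_tendsto (n : ℕ) : Tendsto (fun x : ℝ => ∫ t in (0 : ℝ)..x, |fr n t|) (𝓝[>] 0) (𝓝 0) := by
  have h1 : IntegrableOn (fun t => |fr n t|) (uIcc (0 : ℝ) 1) := by
    rw [uIcc_of_le zero_le_one, integrableOn_Icc_iff_integrableOn_Ioc]
    exact ((fr_integrable n).mono_set Ioc_subset_Ioi_self).abs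
  have h2 := intervalIntegral.continuousOn_primitive_interval h1
  have h3 := h2 0 (by simp)
  rw [ContinuousWithinAt] at h3
  simp only [intervalIntegral.integral_same] at h3
  refine h3.mono_left ?_
  rw [uIcc_of_le zero_le_one]
  refine nhdsWithin_le_iff.2 ?_
  exact Icc_mem_nhdsGT zero_lt_one

/-- decay at `0` -/
lemma log_Mi_tendsto (k n : ℕ) : Tendsto (fun x : ℝ => Real.log x ^ k * Mi n x) (𝓝[>] 0) (𝓝 0) := by
  refine squeeze_zero_norm' ?_ (abs_int_tendsto (k + n))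
  filter_upwards [Ioo_mem_nhdsGT (show (0 : ℝ) < 1 from one_pos)] with x hx
  obtain ⟨hx0, hx1⟩ := hx
  rw [norm_mul, norm_pow, Real.norm_eq_abs, Mi, Real.norm_eq_abs]
  have h1 : |∫ t in (0 : ℝ)..x, fr n t| ≤ ∫ t in (0 : ℝ)..x, |fr n t| :=
    intervalIntegral.abs_integral_le_integral_abs hx0.le
  calc |Real.log x| ^ k * |∫ t in (0 : ℝ)..x, fr n t| ≤ |Real.log x| ^ k * ∫ t in (0 : ℝ)..x, |fr n t| :=
        mul_le_mul_of_nonneg_left h1 (by positivity)
    _ = ∫ t in (0 : ℝ)..x, |Real.log x| ^ k * |fr n t| := by rw [intervalIntegral.integral_const_mul]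
    _ ≤ ∫ t in (0 : ℝ)..x, |fr (k + n) t| := by
        apply intervalIntegral.integral_mono_on_of_le_Ioo hx0.le
        · exact ((fr_interval n hx0.le).abs).const_mul _
        · exact (fr_interval (k + n) hx0.le).abs
        · intro t ht
          have h2 : |Real.log x| ≤ |Real.log t| := by
            rw [abs_of_neg (Real.log_neg hx0 hx1), abs_of_neg (Real.log_neg ht.1 (ht.2.trans hx1))]
            have := Real.log_le_log ht.1 ht.2.le
            linarith
          rw [fr, fr, abs_mul, abs_mul, pow_add, abs_mul, abs_pow, abs_pow, mul_assoc]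
          exact mul_le_mul_of_nonneg_right (pow_le_pow_left₀ (abs_nonneg _) h2 k) (by positivity)

/-- vanishing from the derivative and the limit at `0` -/
lemma zero_of_deriv {F : ℝ → ℝ} (hF : ∀ x, 0 < x → HasDerivAt F 0 x) (hlim : Tendsto F (𝓝[>] 0) (𝓝 0)) {x : ℝ}
    (hx : 0 < x) : F x = 0 := by
  have hconst : ∀ y, 0 < y → F y = F x := by
    intro y hy
    refine (convex_Ioi (0 : ℝ)).is_const_of_fderivWithin_eq_zero (𝕜 := ℝ) ?_ ?_ hy hx
    · intro z hz
      exact (hF z hz).differentiableAt.differentiableWithinAt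
    · intro z hz
      rw [fderivWithin_of_isOpen isOpen_Ioi hz]
      ext
      simp [(hF z hz).hasFDerivAt.fderiv]
  have h1 : Tendsto F (𝓝[>] 0) (𝓝 (F x)) := by
    refine tendsto_const_nhds.congr' ?_
    filter_upwards [self_mem_nhdsWithin] with y hy
    exact (hconst y hy).symm
  exact tendsto_nhds_unique h1 hlim

lemma Mi_zero {x : ℝ} (_hx : 0 < x) : Mi 0 x = 1 - Real.exp (-x) := by
  have h1 : Mi 0 x = ∫ t in (0 : ℝ)..x, Real.exp (-t) := by
    rw [Mi]
    refine intervalIntegral.integral_congr fun t _ => ?_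
    simp [fr]
  rw [h1, intervalIntegral.integral_comp_neg (fun t => Real.exp t), integral_exp]
  simp

/-- the right hand sides -/
noncomputable def Q1 (x : ℝ) : ℝ := Real.log x ^ 1 * Mi 0 x - Real.log x ^ 0 * Mi 1 x
noncomputable def Q2 (x : ℝ) : ℝ :=
  (Real.log x ^ 2 * Mi 0 x - 2 * (Real.log x ^ 1 * Mi 1 x) + Real.log x ^ 0 * Mi 2 x) / 2
noncomputable def Q3 (x : ℝ) : ℝ :=
  (Real.log x ^ 3 * Mi 0 x - 3 * (Real.log x ^ 2 * Mi 1 x) + 3 * (Real.log x ^ 1 * Mi 2 x) - Real.log x ^ 0 * Mi 3 x) / 6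

lemma prod_deriv (k n : ℕ) {x : ℝ} (hx : 0 < x) : HasDerivAt (fun x : ℝ => Real.log x ^ k * Mi n x)
    (k * Real.log x ^ (k - 1) * x⁻¹ * Mi n x + Real.log x ^ k * fr n x) x :=
  ((Real.hasDerivAt_log hx.ne').pow k).mul (Mi_deriv n hx)

lemma Q1_deriv {x : ℝ} (hx : 0 < x) : HasDerivAt Q1 (EE 0 x / x) x := by
  have h := (prod_deriv 1 0 hx).sub (prod_deriv 0 1 hx)
  refine h.congr_deriv ?_
  rw [EE_zero_left, ← Mi_zero hx]
  simp only [fr]
  field_simp
  push_cast
  ring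

lemma Q2_deriv {x : ℝ} (hx : 0 < x) : HasDerivAt Q2 (Q1 x / x) x := by
  have h := (((prod_deriv 2 0 hx).sub ((prod_deriv 1 1 hx).const_mul 2)).add (prod_deriv 0 2 hx)).div_const 2
  refine h.congr_deriv ?_
  simp only [fr, Q1]
  field_simp
  push_cast
  ring

lemma Q3_deriv {x : ℝ} (hx : 0 < x) : HasDerivAt Q3 (Q2 x / x) x := by
  have h := ((((prod_deriv 3 0 hx).sub ((prod_deriv 2 1 hx).const_mul 3)).add ((prod_deriv 1 2 hx).const_mul 3)).sub
    (prod_deriv 0 3 hx)).div_const 6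
  refine h.congr_deriv ?_
  simp only [fr, Q2]
  field_simp
  push_cast
  ring

lemma Q1_tendsto : Tendsto Q1 (𝓝[>] 0) (𝓝 0) := by
  have h := (log_Mi_tendsto 1 0).sub (log_Mi_tendsto 0 1)
  simp only [sub_zero] at h
  exact h

lemma Q2_tendsto : Tendsto Q2 (𝓝[>] 0) (𝓝 0) := by
  have h := (((log_Mi_tendsto 2 0).sub ((log_Mi_tendsto 1 1).const_mul 2)).add (log_Mi_tendsto 0 2)).div_const 2
  simp only [mul_zero, sub_zero, add_zero, zero_div] at h
  exact h

lemma Q3_tendsto : Tendsto Q3 (𝓝[>] 0) (𝓝 0) := by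
  have h := ((((log_Mi_tendsto 3 0).sub ((log_Mi_tendsto 2 1).const_mul 3)).add ((log_Mi_tendsto 1 2).const_mul 3)).sub
    (log_Mi_tendsto 0 3)).div_const 6
  simp only [mul_zero, sub_zero, add_zero, zero_div] at h
  exact h

lemma EE1_eq {x : ℝ} (hx : 0 < x) : EE 1 x = Q1 x := by
  have h := zero_of_deriv (F := fun x => EE 1 x - Q1 x) (fun y hy => by
    have := (EE_deriv' 0 hy).sub (Q1_deriv hy)
    rwa [sub_self] at this) (by
    have := (EE_tendsto 0).sub Q1_tendsto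
    rwa [sub_self] at this) hx
  linarith

lemma EE2_eq {x : ℝ} (hx : 0 < x) : EE 2 x = Q2 x := by
  have h := zero_of_deriv (F := fun x => EE 2 x - Q2 x) (fun y hy => by
    have := (EE_deriv' 1 hy).sub (Q2_deriv hy)
    rwa [EE1_eq hy, sub_self] at this) (by
    have := (EE_tendsto 1).sub Q2_tendsto
    rwa [sub_self] at this) hx
  linarith

lemma EE3_eq {x : ℝ} (hx : 0 < x) : EE 3 x = Q3 x := by
  have h := zero_of_deriv (F := fun x => EE 3 x - Q3 x) (fun y hy => by
    have := (EE_deriv' 2 hy).sub (Q3_deriv hy)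
    rwa [EE2_eq hy, sub_self] at this) (by
    have := (EE_tendsto 2).sub Q3_tendsto
    rwa [sub_self] at this) hx
  linarith

end Pool.Agent.R352.E
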