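import Pool.Agent.R352.E.Rel

/-!
# The functions `E_l` and the integrals `∫ log(1 + s/x)^l e^{-s} ds`
-/

set_option autoImplicit false

open Filter Topology Set MeasureTheory

namespace Pool.Agent.R352.E

/-- the right hand side -/
noncomputable def QQ (l : ℕ) (x : ℝ) : ℝ :=
  (-1) ^ l / l.factorial * ∑ i ∈ Finset.range (l + 1), (l.choose i : ℝ) * (-1) ^ (l - i) * (Real.log x ^ (l - i) * Mi i x)

lemma QQ_zero {x : ℝ} (hx : 0 < x) : QQ 0 x = EE 0 x := by
  rw [EE_zero_left, ← Mi_zero hx, QQ]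
  simp

lemma QQ_deriv (l : ℕ) {x : ℝ} (hx : 0 < x) : HasDerivAt (QQ (l + 1)) (QQ l x / x) x := by
  have h1 : HasDerivAt (QQ (l + 1)) ((-1) ^ (l + 1) / (l + 1).factorial *
      ∑ i ∈ Finset.range (l + 1 + 1), ((l + 1).choose i : ℝ) * (-1) ^ (l + 1 - i) *
        (((l + 1 - i : ℕ) : ℝ) * Real.log x ^ (l + 1 - i - 1) * x⁻¹ * Mi i x + Real.log x ^ (l + 1 - i) * fr i x)) x := by
    refine HasDerivAt.const_mul _ ?_
    have h2 := HasDerivAt.sum (u := Finset.range (l + 1 + 1))
      (A := fun i (x : ℝ) => ((l + 1).choose i : ℝ) * (-1) ^ (l + 1 - i) * (Real.log x ^ (l + 1 - i) * Mi i x))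
      (fun i _ => (prod_deriv (l + 1 - i) i hx).const_mul (((l + 1).choose i : ℝ) * (-1) ^ (l + 1 - i)))
    have h3 : (∑ i ∈ Finset.range (l + 1 + 1), fun x : ℝ => ((l + 1).choose i : ℝ) * (-1) ^ (l + 1 - i) * (Real.log x ^ (l + 1 - i) * Mi i x))
        = fun x : ℝ => ∑ i ∈ Finset.range (l + 1 + 1), ((l + 1).choose i : ℝ) * (-1) ^ (l + 1 - i) * (Real.log x ^ (l + 1 - i) * Mi i x) := by
      ext y
      rw [Finset.sum_apply]
    rw [h3] at h2
    exact h2
  refine h1.congr_deriv ?_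
  have hz : ∑ i ∈ Finset.range (l + 1 + 1), ((l + 1).choose i : ℝ) * (-1) ^ (l + 1 - i) * (Real.log x ^ (l + 1 - i) * fr i x) = 0 := by
    have h4 : ∀ i ∈ Finset.range (l + 1 + 1), ((l + 1).choose i : ℝ) * (-1) ^ (l + 1 - i) * (Real.log x ^ (l + 1 - i) * fr i x)
        = Real.log x ^ (l + 1) * Real.exp (-x) * (1 ^ i * (-1) ^ (l + 1 - i) * ((l + 1).choose i : ℝ)) := by
      intro i hi
      have : l + 1 = (l + 1 - i) + i := by have := Finset.mem_range.1 hi; omega
      rw [fr, one_pow]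
      conv_rhs => rw [this, pow_add]
      simp only [Nat.add_sub_cancel]
      rw [← this]
      ring
    rw [Finset.sum_congr rfl h4, ← Finset.mul_sum, ← add_pow]
    simp
  have hs : ∑ i ∈ Finset.range (l + 1 + 1), ((l + 1).choose i : ℝ) * (-1) ^ (l + 1 - i) *
        (((l + 1 - i : ℕ) : ℝ) * Real.log x ^ (l + 1 - i - 1) * x⁻¹ * Mi i x + Real.log x ^ (l + 1 - i) * fr i x)
      = ∑ i ∈ Finset.range (l + 1), (-(l + 1) * x⁻¹) * ((l.choose i : ℝ) * (-1) ^ (l - i) * (Real.log x ^ (l - i) * Mi i x)) := by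
    simp only [mul_add]
    rw [Finset.sum_add_distrib, hz, add_zero, Finset.sum_range_succ]
    simp only [Nat.sub_self, Nat.cast_zero, zero_mul, mul_zero, add_zero]
    refine Finset.sum_congr rfl fun i hi => ?_
    have hi' := Finset.mem_range.1 hi
    have e1 : l + 1 - i = l - i + 1 := by omega
    have e2 : ((l + 1).choose i : ℝ) * ((l - i + 1 : ℕ) : ℝ) = (l + 1) * (l.choose i : ℝ) := by
      have := Nat.choose_mul_succ_eq l i
      rw [e1] at this
      have h5 : ((l.choose i * (l + 1) : ℕ) : ℝ) = (((l + 1).choose i * (l - i + 1) : ℕ) : ℝ) := by rw [this]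
      push_cast at h5 ⊢
      linarith
    rw [e1, Nat.add_sub_cancel, pow_succ (-1 : ℝ)]
    linear_combination (-(-1 : ℝ) ^ (l - i) * Real.log x ^ (l - i) * x⁻¹ * Mi i x) * e2
  rw [hs, ← Finset.mul_sum, QQ, Nat.factorial_succ]
  have h6 : (l.factorial : ℝ) ≠ 0 := by positivity
  have h7 : ((l : ℝ) + 1) ≠ 0 := by positivity
  push_cast
  rw [pow_succ]
  field_simp

lemma QQ_tendsto (l : ℕ) : Tendsto (QQ l) (𝓝[>] 0) (𝓝 0) := by
  have h : Tendsto (fun x : ℝ => ∑ i ∈ Finset.range (l + 1), (l.choose i : ℝ) * (-1) ^ (l - i) * (Real.log x ^ (l - i) * Mi i x))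
      (𝓝[>] 0) (𝓝 (∑ i ∈ Finset.range (l + 1), (l.choose i : ℝ) * (-1) ^ (l - i) * 0)) :=
    tendsto_finsetSum _ fun i _ => (log_Mi_tendsto (l - i) i).const_mul _
  simp only [mul_zero, Finset.sum_const_zero] at h
  have h2 := h.const_mul ((-1 : ℝ) ^ l / l.factorial)
  rw [mul_zero] at h2
  exact h2

lemma EE_eq_QQ (l : ℕ) : ∀ {x : ℝ}, 0 < x → EE l x = QQ l x := by
  induction l with
  | zero => intro x hx; exact (QQ_zero hx).symm
  | succ l ih =>
    intro x hx
    have h := zero_of_deriv (F := fun x => EE (l + 1) x - QQ (l + 1) x) (fun y hy => by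
      have := (EE_deriv' l hy).sub (QQ_deriv l hy)
      rwa [ih hy, sub_self] at this) (by
      have := (EE_tendsto l).sub (QQ_tendsto (l + 1))
      rwa [sub_self] at this) hx
    linarith

/-- the generalized Gompertz integrals -/
noncomputable def dl (l : ℕ) (x : ℝ) : ℝ := ∫ s in Ioi (0 : ℝ), Real.log (1 + s / x) ^ l * Real.exp (-s)

lemma int_shift (f : ℝ → ℝ) (x : ℝ) : ∫ s in Ioi (0 : ℝ), f (x + s) = ∫ t in Ioi x, f t := by
  have h := (measurePreserving_add_left volume x).setIntegral_preimage_emb (measurableEmbedding_addLeft x) f (Ioi x)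
  rw [← h]
  congr 2
  ext s
  simp

lemma exp_dl (l : ℕ) {x : ℝ} (hx : 0 < x) :
    Real.exp (-x) * dl l x = ∫ t in Ioi x, (Real.log t - Real.log x) ^ l * Real.exp (-t) := by
  rw [← int_shift (fun t => (Real.log t - Real.log x) ^ l * Real.exp (-t)), dl, ← integral_const_mul]
  refine setIntegral_congr_fun measurableSet_Ioi fun s hs => ?_
  have hs' : (0 : ℝ) < s := hs
  have h1 : Real.log (1 + s / x) = Real.log (x + s) - Real.log x := by
    rw [← Real.log_div (by positivity) hx.ne', add_div, div_self hx.ne']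
  have h2 : Real.exp (-(x + s)) = Real.exp (-x) * Real.exp (-s) := by
    rw [← Real.exp_add]; congr 1; ring
  simp only [h1, h2]
  ring

/-- the tails -/
noncomputable def gi (l : ℕ) (x : ℝ) : ℝ := ∫ t in Ioi x, fr l t

lemma exp_dl' (l : ℕ) {x : ℝ} (hx : 0 < x) :
    Real.exp (-x) * dl l x = ∑ i ∈ Finset.range (l + 1), (l.choose i : ℝ) * (-1) ^ (l - i) * (Real.log x ^ (l - i) * gi i x) := by
  rw [exp_dl l hx]
  have h1 : ∀ t : ℝ, (Real.log t - Real.log x) ^ l * Real.exp (-t) =
      ∑ i ∈ Finset.range (l + 1), ((l.choose i : ℝ) * (-1) ^ (l - i) * Real.log x ^ (l - i)) * fr i t := by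
    intro t
    rw [sub_eq_add_neg, add_pow, Finset.sum_mul]
    refine Finset.sum_congr rfl fun i _ => ?_
    rw [fr, neg_pow]
    ring
  simp only [h1]
  rw [integral_finsetSum]
  · refine Finset.sum_congr rfl fun i _ => ?_
    rw [integral_const_mul, gi]
    ring
  · intro i _
    exact ((fr_integrable i).mono_set (Ioi_subset_Ioi hx.le)).const_mul _

/-- the full moments of `log (t / x)` -/
noncomputable def NN (l : ℕ) (x : ℝ) : ℝ :=
  ∑ i ∈ Finset.range (l + 1), (l.choose i : ℝ) * (-1) ^ (l - i) * (Real.log x ^ (l - i) * mo i)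

lemma EE_rel (l : ℕ) {x : ℝ} (hx : 0 < x) :
    EE l x = (-1) ^ l / l.factorial * (NN l x - Real.exp (-x) * dl l x) := by
  rw [EE_eq_QQ l hx, QQ, exp_dl' l hx, NN, ← Finset.sum_sub_distrib]
  congr 1
  refine Finset.sum_congr rfl fun i _ => ?_
  rw [mo_eq i hx, gi]
  ring

lemma NN_one (x : ℝ) : NN 1 x = -(Real.eulerMascheroniConstant + Real.log x) := by
  rw [NN]
  simp [Finset.sum_range_succ, mo0, mo1]

lemma NN_two (x : ℝ) : NN 2 x = (Real.eulerMascheroniConstant + Real.log x) ^ 2 + Real.pi ^ 2 / 6 := by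
  rw [NN]
  simp [Finset.sum_range_succ, mo0, mo1, mo2]
  ring

lemma NN_three (x : ℝ) : NN 3 x = -((Real.eulerMascheroniConstant + Real.log x) ^ 3 +
    (Real.eulerMascheroniConstant + Real.log x) * Real.pi ^ 2 / 2 + 2 * zeta3) := by
  rw [NN]
  simp [Finset.sum_range_succ, mo0, mo1, mo2, mo3, Nat.choose]
  ring

/-- the Gompertz function -/
noncomputable def gz (x : ℝ) : ℝ := ∫ s in Ioi (0 : ℝ), Real.exp (-s) / (x + s)

lemma log_bound {x s : ℝ} (hx : 0 < x) (hs : 0 ≤ s) : 0 ≤ Real.log (1 + s / x) ∧ Real.log (1 + s / x) ≤ s / x := by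
  have h : 0 ≤ s / x := by positivity
  refine ⟨Real.log_nonneg (by linarith), ?_⟩
  have := Real.log_le_sub_one_of_pos (show 0 < 1 + s / x by linarith)
  linarith

lemma dl_one {x : ℝ} (hx : 0 < x) : dl 1 x = gz x := by
  have hm : IntegrableOn (fun s : ℝ => s * Real.exp (-s)) (Ioi 0) := by
    have h := Real.GammaIntegral_convergent (s := 2) (by norm_num)
    refine h.congr_fun (fun s _ => ?_) measurableSet_Ioi
    norm_num
    ring
  have hd : ∀ s ∈ Ioi (0 : ℝ), HasDerivAt (fun s : ℝ => Real.log (1 + s / x)) (1 / (x + s)) s := by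
    intro s hs
    have hs' : (0 : ℝ) < s := hs
    have h0 : (1 + s / x) ≠ 0 := by positivity
    have h1 : HasDerivAt (fun s : ℝ => 1 + s / x) (1 / x) s := ((hasDerivAt_id s).div_const x).const_add 1
    have h2 := h1.log h0
    refine h2.congr_deriv ?_
    field_simp
  have hv : ∀ s ∈ Ioi (0 : ℝ), HasDerivAt (fun s : ℝ => -Real.exp (-s)) (Real.exp (-s)) s := by
    intro s _
    have h1 := ((hasDerivAt_neg s).exp).neg
    refine h1.congr_deriv ?_
    ring
  have hc : ContinuousOn (fun s : ℝ => Real.log (1 + s / x)) (Ioi 0) := fun s hs => (hd s hs).continuousAt.continuousWithinAt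
  have i1 : IntegrableOn ((fun s : ℝ => Real.log (1 + s / x)) * (fun s : ℝ => Real.exp (-s))) (Ioi 0) := by
    refine Integrable.mono' (hm.div_const x) ?_ ?_
    · exact (hc.mul (by fun_prop)).aestronglyMeasurable measurableSet_Ioi
    · filter_upwards [ae_restrict_mem measurableSet_Ioi] with s hs
      have hs' : (0 : ℝ) < s := hs
      obtain ⟨h1, h2⟩ := log_bound hx hs'.le
      rw [Pi.mul_apply, norm_mul, Real.norm_eq_abs, Real.norm_eq_abs, abs_of_nonneg h1, abs_of_pos (Real.exp_pos _)]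
      calc Real.log (1 + s / x) * Real.exp (-s) ≤ s / x * Real.exp (-s) := mul_le_mul_of_nonneg_right h2 (Real.exp_pos _).le
        _ = _ := by ring
  have i2 : IntegrableOn ((fun s : ℝ => 1 / (x + s)) * (fun s : ℝ => -Real.exp (-s))) (Ioi 0) := by
    have he : IntegrableOn (fun s : ℝ => Real.exp (-s)) (Ioi 0) := integrableOn_exp_neg_Ioi 0
    refine Integrable.mono' (he.div_const x) ?_ ?_
    · refine ContinuousOn.aestronglyMeasurable ?_ measurableSet_Ioi
      refine ContinuousOn.mul (ContinuousOn.div (by fun_prop) (by fun_prop) ?_) (by fun_prop)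
      intro s hs
      have hs' : (0 : ℝ) < s := hs
      positivity
    · filter_upwards [ae_restrict_mem measurableSet_Ioi] with s hs
      have hs' : (0 : ℝ) < s := hs
      rw [Pi.mul_apply, norm_mul, Real.norm_eq_abs, Real.norm_eq_abs, abs_neg, abs_of_pos (Real.exp_pos _),
        abs_of_pos (by positivity)]
      calc 1 / (x + s) * Real.exp (-s) ≤ 1 / x * Real.exp (-s) :=
            mul_le_mul_of_nonneg_right (one_div_le_one_div_of_le hx (by linarith)) (Real.exp_pos _).le
        _ = _ := by ring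
  have t1 : Tendsto ((fun s : ℝ => Real.log (1 + s / x)) * (fun s : ℝ => -Real.exp (-s))) (𝓝[>] 0) (𝓝 0) := by
    have h1 : ContinuousAt (fun s : ℝ => Real.log (1 + s / x) * -Real.exp (-s)) 0 := by
      refine ContinuousAt.mul (ContinuousAt.log (by fun_prop) (by simp)) (by fun_prop)
    have h2 := h1.tendsto
    simp only [zero_div, add_zero, Real.log_one, zero_mul] at h2
    exact h2.mono_left nhdsWithin_le_nhds
  have t2 : Tendsto ((fun s : ℝ => Real.log (1 + s / x)) * (fun s : ℝ => -Real.exp (-s))) atTop (𝓝 0) := by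
    have h1 := (Real.tendsto_pow_mul_exp_neg_atTop_nhds_zero 1).div_const x
    rw [zero_div] at h1
    refine squeeze_zero_norm' ?_ h1
    filter_upwards [eventually_gt_atTop (0 : ℝ)] with s hs
    obtain ⟨h3, h4⟩ := log_bound hx hs.le
    rw [Pi.mul_apply, norm_mul, Real.norm_eq_abs, Real.norm_eq_abs, abs_neg, abs_of_nonneg h3, abs_of_pos (Real.exp_pos _)]
    calc Real.log (1 + s / x) * Real.exp (-s) ≤ s / x * Real.exp (-s) := mul_le_mul_of_nonneg_right h4 (Real.exp_pos _).le
      _ = _ := by ring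
  have h := integral_Ioi_mul_deriv_eq_deriv_mul hd hv i1 i2 t1 t2
  rw [dl, gz]
  simp only [pow_one]
  rw [h, sub_zero, zero_sub, ← integral_neg]
  refine setIntegral_congr_fun measurableSet_Ioi fun s _ => ?_
  ring

end Pool.Agent.R352.E
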