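import Mathlib

/-!
# Towers of iterated integrals over `ℚ(z, w)`, `w = exp(-z/q)`: the derivation and its semi-invariants
-/

set_option autoImplicit false
set_option linter.unusedSectionVars false

open MvPolynomial

namespace Pool.Agent.R352.E

/-- A tower: variables `z`, `w` and the variables `i < w`, which are iterated integrals:
the derivative of the variable `i` is the variable `pr i`, or `1 - w ^ m i` if `pr i` is `none`. -/
structure Tw (σ : Type) [LinearOrder σ] where
  z : σ
  w : σ
  pr : σ → Option σ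
  m : σ → ℕ
  hwz : w < z
  htop : ∀ i, i ≠ z → i ≤ w
  hpr : ∀ i j, i < w → pr i = some j → i < j ∧ j < w
  hinj : ∀ i i' j, i < w → i' < w → pr i = some j → pr i' = some j → i = i'
  hm : ∀ i, i < w → pr i = none → 1 ≤ m i
  hminj : ∀ i i', i < w → i' < w → pr i = none → pr i' = none → m i = m i' → i = i'

section

variable {σ : Type} [Fintype σ] [LinearOrder σ] (t : Tw σ) (q : ℕ)

/-- the derivative of the variable `i < w` -/
noncomputable def Tw.g (i : σ) : MvPolynomial σ ℚ :=
  match t.pr i with
  | some j => X j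
  | none => 1 - X t.w ^ t.m i

/-- the derivatives of the variables with respect to `q z d/dz` -/
noncomputable def Tw.dX (i : σ) : MvPolynomial σ ℚ :=
  if i = t.z then C (q : ℚ) * X t.z else if i = t.w then -(X t.z * X t.w) else C (q : ℚ) * t.g i

/-- the derivation `q z d/dz` -/
noncomputable def Tw.D : Derivation ℚ (MvPolynomial σ ℚ) (MvPolynomial σ ℚ) := mkDerivation ℚ (t.dX q)

lemma Tw.D_z : t.D q (X t.z) = C (q : ℚ) * X t.z := by
  rw [Tw.D, mkDerivation_X, Tw.dX, if_pos rfl]

lemma Tw.D_w : t.D q (X t.w) = -(X t.z * X t.w) := by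
  rw [Tw.D, mkDerivation_X, Tw.dX, if_neg t.hwz.ne, if_pos rfl]

lemma Tw.D_v {i : σ} (hi : i < t.w) : t.D q (X i) = C (q : ℚ) * t.g i := by
  rw [Tw.D, mkDerivation_X, Tw.dX, if_neg (hi.trans t.hwz).ne, if_neg hi.ne]

omit [Fintype σ] [LinearOrder σ] in
lemma der_sum {ι : Type} (s : Finset ι) (f : ι → Derivation ℚ (MvPolynomial σ ℚ) (MvPolynomial σ ℚ))
    (x : MvPolynomial σ ℚ) : (∑ i ∈ s, f i) x = ∑ i ∈ s, f i x := by
  classical
  induction s using Finset.induction_on with
  | empty => rfl
  | insert a s ha ih => rw [Finset.sum_insert ha, Finset.sum_insert ha, Derivation.add_apply, ih]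

lemma Tw.D_eq (G : MvPolynomial σ ℚ) : t.D q G = ∑ i, t.D q (X i) * pderiv i G := by
  have h1 : t.D q = ∑ i, (t.D q (X i)) • (pderiv i : Derivation ℚ (MvPolynomial σ ℚ) (MvPolynomial σ ℚ)) := by
    apply derivation_ext
    intro j
    rw [der_sum, Finset.sum_eq_single j]
    · simp
    · intro i _ hij
      rw [Derivation.smul_apply, pderiv_X_of_ne hij.symm, smul_zero]
    · intro h; exact absurd (Finset.mem_univ j) h
  conv_lhs => rw [h1]
  rw [der_sum]
  rfl

lemma Tw.comm (u : σ) (G : MvPolynomial σ ℚ) :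
    pderiv u (t.D q G) = t.D q (pderiv u G) + ∑ i, pderiv u (t.D q (X i)) * pderiv i G := by
  have h1 : ⁅(pderiv u : Derivation ℚ (MvPolynomial σ ℚ) (MvPolynomial σ ℚ)), t.D q⁆ =
      ∑ i, (pderiv u (t.D q (X i))) • (pderiv i : Derivation ℚ (MvPolynomial σ ℚ) (MvPolynomial σ ℚ)) := by
    apply derivation_ext
    intro j
    rw [der_sum, Finset.sum_eq_single j]
    · rw [Derivation.commutator_apply, Derivation.smul_apply, pderiv_X_self]
      have h2 : t.D q (pderiv u (X j : MvPolynomial σ ℚ)) = 0 := by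
        by_cases h : j = u
        · rw [h, pderiv_X_self]; simp
        · rw [pderiv_X_of_ne h]; simp
      rw [h2]
      simp
    · intro i _ hij
      rw [Derivation.smul_apply, pderiv_X_of_ne hij.symm, smul_zero]
    · intro h; exact absurd (Finset.mem_univ j) h
  have h2 := congrArg (fun d : Derivation ℚ (MvPolynomial σ ℚ) (MvPolynomial σ ℚ) => d G) h1
  simp only [Derivation.commutator_apply, der_sum, Derivation.smul_apply, smul_eq_mul] at h2
  linear_combination h2

/-- `pderiv u` of the derivatives of the variables -/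
lemma Tw.pderiv_D_X {u i : σ} (hu : u < t.w) (h : ¬ (i < t.w ∧ t.pr i = some u)) : pderiv u (t.D q (X i)) = 0 := by
  have hw0 : pderiv u (X t.w : MvPolynomial σ ℚ) = 0 := pderiv_X_of_ne hu.ne'
  have hz0 : pderiv u (X t.z : MvPolynomial σ ℚ) = 0 := pderiv_X_of_ne (hu.trans t.hwz).ne'
  rw [Tw.D, mkDerivation_X, Tw.dX]
  split_ifs with h1 h2
  · rw [pderiv_C_mul, hz0, mul_zero]
  · rw [map_neg, pderiv_mul, hw0, hz0]; simp
  · rw [pderiv_C_mul, Tw.g]
    have hi : i < t.w := lt_of_le_of_ne (t.htop i h1) h2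
    cases hp : t.pr i with
    | none =>
      simp only
      rw [map_sub, pderiv_one, pderiv_pow, hw0]; simp
    | some j =>
      simp only
      have : j ≠ u := by
        rintro rfl
        exact h ⟨hi, hp⟩
      rw [pderiv_X_of_ne this, mul_zero]

/-- vanishing of all `k`-fold derivatives with respect to the variables `< w` -/
def Tw.Dg (t : Tw σ) : ℕ → MvPolynomial σ ℚ → Prop
  | 0, G => G = 0
  | k + 1, G => ∀ v, v < t.w → Tw.Dg t k (pderiv v G)

lemma Tw.Dg_zero (k : ℕ) : t.Dg k 0 := by
  induction k with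
  | zero => rfl
  | succ k ih => intro v _; rw [map_zero]; exact ih

lemma Tw.Dg_succ {k : ℕ} {G : MvPolynomial σ ℚ} (h : t.Dg k G) : t.Dg (k + 1) G := by
  induction k generalizing G with
  | zero => intro v _; have : G = 0 := h; rw [this, map_zero]; rfl
  | succ k ih => intro v hv; exact ih (h v hv)

lemma Tw.Dg_mono {k l : ℕ} (hkl : k ≤ l) {G : MvPolynomial σ ℚ} (h : t.Dg k G) : t.Dg l G := by
  induction l, hkl using Nat.le_induction with
  | base => exact h
  | succ l _ ih => exact t.Dg_succ ih

lemma Tw.Dg_add {k : ℕ} {G H : MvPolynomial σ ℚ} (h : t.Dg k G) (h' : t.Dg k H) : t.Dg k (G + H) := by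
  induction k generalizing G H with
  | zero => have h1 : G = 0 := h; have h2 : H = 0 := h'; show G + H = 0; rw [h1, h2, add_zero]
  | succ k ih => intro v hv; rw [map_add]; exact ih (h v hv) (h' v hv)

lemma Tw.Dg_monomial (k : ℕ) : ∀ (s : σ →₀ ℕ) (a : ℚ), s.degree < k → t.Dg k (monomial s a) := by
  induction k with
  | zero => intro s a h; omega
  | succ k ih =>
    intro s a h v _
    rw [pderiv_monomial]
    by_cases hv : s v = 0
    · rw [hv]; simp only [Nat.cast_zero, mul_zero, monomial_zero]; exact t.Dg_zero k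
    · apply ih
      have h1 : (s - Finsupp.single v 1) + Finsupp.single v 1 = s := by
        ext i
        simp only [Finsupp.add_apply, Finsupp.tsub_apply, Finsupp.single_apply]
        split_ifs with hi
        · subst hi; omega
        · omega
      have h2 : (s - Finsupp.single v 1).degree + 1 = s.degree := by
        conv_rhs => rw [← h1]
        rw [map_add, Finsupp.degree_single]
      omega

lemma Tw.Dg_exists (G : MvPolynomial σ ℚ) : ∃ k, t.Dg k G := by
  induction G using MvPolynomial.induction_on' with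
  | monomial s a => exact ⟨s.degree + 1, t.Dg_monomial _ s a (Nat.lt_succ_self _)⟩
  | add p r hp hr =>
    obtain ⟨k, hk⟩ := hp
    obtain ⟨l, hl⟩ := hr
    exact ⟨max k l, t.Dg_add (t.Dg_mono (le_max_left _ _) hk) (t.Dg_mono (le_max_right _ _) hl)⟩

/-- the coefficients of `X i * ∂_i G` -/
lemma coeff_X_mul_pderiv (i : σ) (G : MvPolynomial σ ℚ) (s : σ →₀ ℕ) :
    coeff s (X i * pderiv i G) = (s i : ℚ) * coeff s G := by
  rw [coeff_X_mul']
  split_ifs with h
  · rw [coeff_pderiv]
    have h1 : s i ≠ 0 := Finsupp.mem_support_iff.1 h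
    have h2 : s - Finsupp.single i 1 + Finsupp.single i 1 = s := by
      ext j
      simp only [Finsupp.add_apply, Finsupp.tsub_apply, Finsupp.single_apply]
      split_ifs with hj
      · subst hj; omega
      · omega
    rw [h2]
    simp only [Finsupp.tsub_apply, Finsupp.single_eq_same]
    have h3 : ((s i - 1 : ℕ) : ℚ) + 1 = s i := by
      rw [Nat.cast_sub (by omega)]; simp
    rw [h3]
    ring
  · rw [Finsupp.notMem_support_iff.1 h]; simp

end

end Pool.Agent.R352.E
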